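import Pool.Agent.R972.OP.StmE

/-!
# OP-TR: transfer to Euclidean space (project OP)
-/

set_option autoImplicit false

namespace Pool.Agent.R441.OPTR

open MeasureTheory Set
open Pool.Agent.R972.OP
open Pool.Agent.W695.KH (Eu EV VV)

theorem pre_eq {n : ℕ} (R : Fin n → Fin n → Prop) :
    (fun x : Fin n → ℝ => (WithLp.toLp 2 x : Eu (Fin n))) ⁻¹' (OE R) = OPp R := by
  ext x
  simp [OE, OPp]

theorem op_tr : S_TR := by
  intro n R
  have hmp := PiLp.volume_preserving_toLp (Fin n)
  have hme : MeasurableEmbedding (fun x : Fin n → ℝ => (WithLp.toLp 2 x : Eu (Fin n))) :=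
    (MeasurableEquiv.toLp 2 (Fin n → ℝ)).measurableEmbedding
  refine ⟨?_, fun G => ?_⟩
  · rw [← pre_eq R]
    exact (hmp.measure_preimage_emb hme (OE R)).symm
  · rw [← pre_eq R]
    exact (hmp.setIntegral_preimage_emb hme G (OE R)).symm

end Pool.Agent.R441.OPTR
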