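import Pool.Agent.R441.Cyc

/-! The computation behind the counterexample `p = 107` for `S_p(ω)`. -/

set_option autoImplicit false
set_option linter.all false

namespace Pool.Agent.R441

open Polynomial

instance fact643 : Fact (Nat.Prime 643) := ⟨by norm_num⟩

theorem prim643 : IsPrimitiveRoot (7 : ZMod 643) 321 := by
  rw [IsPrimitiveRoot.iff_orderOf]
  apply orderOf_eq_of_pow_and_pow_div_prime (by norm_num)
  · decide +kernel
  · intro q hq hd
    have h1 : q ∣ 3 * 107 := hd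
    rcases (Nat.Prime.dvd_mul hq).1 h1 with h | h
    · have : q = 3 := (Nat.prime_dvd_prime_iff_eq hq Nat.prime_three).1 h
      subst this
      decide +kernel
    · have : q = 107 := (Nat.prime_dvd_prime_iff_eq hq (by norm_num)).1 h
      subst this
      decide +kernel

theorem fac643_cast (k : ℕ) :
    ((fc 643 7 107 (3 * k ^ 2 % 321) : ℕ) : ZMod 643) = 7 ^ 107 - 7 ^ (3 * k ^ 2) := by
  have h321 : (7 : ZMod 643) ^ 321 = 1 := prim643.pow_eq_one
  rw [fc_cast 643 (by norm_num), Nat.cast_ofNat, ← pow_eq_pow_mod (3 * k ^ 2) h321]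

theorem prod643 : ∏ k ∈ Finset.Icc 1 53, ((7 : ZMod 643) ^ 107 - 7 ^ (3 * k ^ 2)) = 327 := by
  have h : ∏ k ∈ Finset.Icc 1 53, ((7 : ZMod 643) ^ 107 - 7 ^ (3 * k ^ 2)) =
      ((∏ k ∈ Finset.Icc 1 53, fc 643 7 107 (3 * k ^ 2 % 321) : ℕ) : ZMod 643) := by
    rw [Nat.cast_prod]
    exact Finset.prod_congr rfl fun k _ => (fac643_cast k).symm
  rw [h]
  have h2 : (∏ k ∈ Finset.Icc 1 53, fc 643 7 107 (3 * k ^ 2 % 321)) % 643 = 327 := by decide +kernel
  rw [← ZMod.natCast_mod, h2]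
  rfl

/-- the polynomial -/
noncomputable def P107 (s : ℤ) : ℤ[X] :=
  ((∏ k ∈ Finset.Icc 1 53, (X ^ 107 - X ^ (3 * k ^ 2))) * X ^ 214
    - ((6 * s : ℤ) : ℤ[X]) * (X ^ 107 - X ^ 214)) ^ 2 + ((107 : ℤ) : ℤ[X])

theorem P107_aeval {R : Type} [CommRing R] (g : R) (s : ℤ) : aeval g (P107 s) =
    ((∏ k ∈ Finset.Icc 1 53, (g ^ 107 - g ^ (3 * k ^ 2))) * g ^ 214
    - ((6 * s : ℤ) : R) * (g ^ 107 - g ^ 214)) ^ 2 + ((107 : ℤ) : R) := by
  unfold P107
  rw [map_add, map_pow, map_sub, map_mul, map_mul, map_prod, map_intCast, map_intCast, map_sub]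
  simp only [map_pow, map_sub, aeval_X]

theorem main107 {ζ : ℂ} (hζ : IsPrimitiveRoot ζ 321) {s : ℤ} (hs : s = 1 ∨ s = -1) :
    ((∏ k ∈ Finset.Icc 1 53, (ζ ^ 107 - ζ ^ (3 * k ^ 2))) * ζ ^ 214
      - 6 * s * (ζ ^ 107 - ζ ^ 214)) ^ 2 ≠ -107 := by
  intro h
  have h1 : aeval ζ (P107 s) = 0 := by
    rw [P107_aeval]
    push_cast
    rw [h]
    norm_num
  have h2 := transfer (by norm_num) hζ prim643 _ h1
  rw [P107_aeval, prod643] at h2
  rcases hs with rfl | rfl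
  · revert h2
    decide +kernel
  · revert h2
    decide +kernel

end Pool.Agent.R441
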