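import Pool.Agent.R441.Cyc

/-! The computation behind the counterexample `p = 397` for `S_p` at twelfth roots of unity. -/

set_option autoImplicit false
set_option linter.all false

namespace Pool.Agent.R441

open Polynomial

instance fact14293 : Fact (Nat.Prime 14293) := ⟨by norm_num⟩

theorem aux14293 (m r : ℕ) (hm : 216 ^ m % 14293 = r) (hr : r % 14293 ≠ 1) :
    (216 : ZMod 14293) ^ m ≠ 1 := by
  intro h
  have h0 : (216 : ZMod 14293) = ((216 : ℕ) : ZMod 14293) := by push_cast; rfl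
  have h1 : (1 : ZMod 14293) = ((1 : ℕ) : ZMod 14293) := by push_cast; rfl
  rw [h0, ← Nat.cast_pow, ← ZMod.natCast_mod, hm, h1, ZMod.natCast_eq_natCast_iff] at h
  exact hr h

theorem prim14293 : IsPrimitiveRoot (216 : ZMod 14293) 4764 := by
  rw [IsPrimitiveRoot.iff_orderOf]
  apply orderOf_eq_of_pow_and_pow_div_prime (by norm_num)
  · have h0 : (216 : ZMod 14293) = ((216 : ℕ) : ZMod 14293) := by push_cast; rfl
    rw [h0, ← Nat.cast_pow, ← ZMod.natCast_mod]
    have : 216 ^ 4764 % 14293 = 1 := by decide +kernel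
    rw [this, Nat.cast_one]
  · intro q hq hd
    have h1 : q ∣ 2 ^ 2 * (3 * 397) := hd
    have c2 : ∃ r, 216 ^ 2382 % 14293 = r ∧ r % 14293 ≠ 1 := ⟨14292, by decide +kernel, by norm_num⟩
    have c3 : ∃ r, 216 ^ 1588 % 14293 = r ∧ r % 14293 ≠ 1 := ⟨1840, by decide +kernel, by norm_num⟩
    have c397 : ∃ r, 216 ^ 12 % 14293 = r ∧ r % 14293 ≠ 1 := ⟨333, by decide +kernel, by norm_num⟩
    rcases (Nat.Prime.dvd_mul hq).1 h1 with h | h
    · have : q = 2 := (Nat.prime_dvd_prime_iff_eq hq Nat.prime_two).1 (hq.dvd_of_dvd_pow h)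
      subst this
      obtain ⟨r, e1, e2⟩ := c2
      have e : 4764 / 2 = 2382 := by norm_num
      rw [e]
      exact aux14293 _ r e1 e2
    · rcases (Nat.Prime.dvd_mul hq).1 h with h | h
      · have : q = 3 := (Nat.prime_dvd_prime_iff_eq hq Nat.prime_three).1 h
        subst this
        obtain ⟨r, e1, e2⟩ := c3
        have e : 4764 / 3 = 1588 := by norm_num
        rw [e]
        exact aux14293 _ r e1 e2
      · have : q = 397 := (Nat.prime_dvd_prime_iff_eq hq (by norm_num)).1 h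
        subst this
        obtain ⟨r, e1, e2⟩ := c397
        have e : 4764 / 397 = 12 := by norm_num
        rw [e]
        exact aux14293 _ r e1 e2

theorem fac14293_cast (k : ℕ) :
    ((fc 14293 216 397 (12 * k ^ 2 % 4764) : ℕ) : ZMod 14293) = 216 ^ 397 - 216 ^ (12 * k ^ 2) := by
  have h := prim14293.pow_eq_one
  rw [fc_cast 14293 (by norm_num), Nat.cast_ofNat, ← pow_eq_pow_mod (12 * k ^ 2) h]

theorem prod14293 : ∏ k ∈ Finset.Icc 1 198, ((216 : ZMod 14293) ^ 397 - 216 ^ (12 * k ^ 2)) =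
    ((10595 : ℕ) : ZMod 14293) := by
  have h : ∏ k ∈ Finset.Icc 1 198, ((216 : ZMod 14293) ^ 397 - 216 ^ (12 * k ^ 2)) =
      ((∏ k ∈ Finset.Icc 1 198, fc 14293 216 397 (12 * k ^ 2 % 4764) : ℕ) : ZMod 14293) := by
    rw [Nat.cast_prod]
    exact Finset.prod_congr rfl fun k _ => (fac14293_cast k).symm
  rw [h]
  have h2 : (∏ k ∈ Finset.Icc 1 198, fc 14293 216 397 (12 * k ^ 2 % 4764)) % 14293 = 10595 := by
    decide +kernel
  rw [← ZMod.natCast_mod, h2]

/-- the polynomial -/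
noncomputable def PQ (N a m b c : ℕ) (s d : ℤ) : ℤ[X] :=
  ((∏ k ∈ Finset.Icc 1 N, (X ^ a - X ^ (m * k ^ 2)))
    - ((s : ℤ) : ℤ[X]) * (X ^ b - X ^ c)) ^ 2 + ((d : ℤ) : ℤ[X])

theorem PQ_aeval {R : Type} [CommRing R] (g : R) (N a m b c : ℕ) (s d : ℤ) :
    aeval g (PQ N a m b c s d) =
    ((∏ k ∈ Finset.Icc 1 N, (g ^ a - g ^ (m * k ^ 2)))
    - ((s : ℤ) : R) * (g ^ b - g ^ c)) ^ 2 + ((d : ℤ) : R) := by
  unfold PQ
  rw [map_add, map_pow, map_sub, map_mul, map_prod, map_intCast, map_intCast, map_sub]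
  simp only [map_pow, map_sub, aeval_X]

theorem pows14293 : (216 : ZMod 14293) ^ 1588 - 216 ^ 3176 = ((3681 : ℕ) : ZMod 14293) := by
  have h := fc_cast 14293 (by norm_num) 216 1588 3176
  rw [Nat.cast_ofNat] at h
  rw [← h]
  have h2 : fc 14293 216 1588 3176 % 14293 = 3681 := by decide +kernel
  rw [← ZMod.natCast_mod, h2]

theorem main397 {ζ : ℂ} (hζ : IsPrimitiveRoot ζ 4764) {s : ℤ} (hs : s = 23 ∨ s = -23) :
    ((∏ k ∈ Finset.Icc 1 198, (ζ ^ 397 - ζ ^ (12 * k ^ 2)))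
      - s * (ζ ^ 1588 - ζ ^ 3176)) ^ 2 ≠ -1588 := by
  intro h
  have h1 : aeval ζ (PQ 198 397 12 1588 3176 s 1588) = 0 := by
    rw [PQ_aeval, h]
    norm_num
  have h2 := transfer (by norm_num) hζ prim14293 _ h1
  rw [PQ_aeval, prod14293, pows14293] at h2
  have h3 : ((((10595 : ℤ) - s * 3681) ^ 2 + 1588 : ℤ) : ZMod 14293) = 0 := by
    rw [← h2]
    push_cast
    ring
  rw [ZMod.intCast_zmod_eq_zero_iff_dvd] at h3
  rcases hs with rfl | rfl
  · revert h3
    decide +kernel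
  · revert h3
    decide +kernel

end Pool.Agent.R441
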