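import Mathlib

/-! Transfer of integer polynomial relations between primitive roots of unity. -/

set_option autoImplicit false

namespace Pool.Agent.R441

open Polynomial

/-- An integer polynomial vanishing at one complex primitive `n`-th root of unity vanishes at every
primitive `n`-th root of unity of every domain in which it makes sense. -/
theorem transfer {n : ℕ} (hn : 0 < n) {ζ : ℂ} (hζ : IsPrimitiveRoot ζ n) {R : Type*} [CommRing R]
    [IsDomain R] {g : R} (hg : IsPrimitiveRoot g n) (f : ℤ[X]) (hf : aeval ζ f = 0) :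
    aeval g f = 0 := by
  have h1 : minpoly ℤ ζ ∣ f := minpoly.isIntegrallyClosed_dvd (hζ.isIntegral hn) hf
  rw [← cyclotomic_eq_minpoly hζ hn] at h1
  obtain ⟨q, rfl⟩ := h1
  have h2 : aeval g (cyclotomic n ℤ) = 0 := by
    rw [aeval_def, ← eval_map, algebraMap_int_eq, map_cyclotomic_int]
    exact hg.isRoot_cyclotomic hn
  rw [map_mul, h2, zero_mul]

/-- `g ^ a - g ^ e` modulo `l` as a natural number -/
def fc (l g a e : ℕ) : ℕ := g ^ a % l + (l - g ^ e % l)

theorem fc_cast (l : ℕ) (hl : 0 < l) (g a e : ℕ) :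
    ((fc l g a e : ℕ) : ZMod l) = (g : ZMod l) ^ a - (g : ZMod l) ^ e := by
  unfold fc
  rw [Nat.cast_add, Nat.cast_sub (Nat.mod_lt _ hl).le, ZMod.natCast_mod, ZMod.natCast_mod]
  rw [Nat.cast_pow, Nat.cast_pow, CharP.cast_eq_zero (ZMod l) l, zero_sub, ← sub_eq_add_neg]

/-- `S_p(x) = ∏_{k=1}^{(p-1)/2} (x - e^{2πik²/p})` -/
noncomputable def S (p : ℕ) (x : ℂ) : ℂ :=
  ∏ k ∈ Finset.Icc 1 ((p - 1) / 2), (x - Complex.exp (2 * Real.pi * Complex.I * (k : ℂ) ^ 2 / p))

end Pool.Agent.R441
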