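import Pool.Agent.R537.LR.Stm

/-!
# LR-PB: block matrices are computable in polynomial time (MP_d82c50_lc)
-/

set_option autoImplicit false

namespace Pool.Agent.R441.LRPB

open Pool.Agent.NPC Pool.Agent.NPC.R537LR

theorem t_PB : S_PB := by
  intro α ρ κ _ _ _ T f R C hT hR hC hf
  have hT1 : UPoly (fun p : α × ρ => T p.1) := hT.comp (Poly.fst Poly.id)
  have hT2 : UPoly (fun s : ((α × ρ) × ℕ) × κ => T s.1.1.1) :=
    UPoly.comp (n := T) (f := fun s : ((α × ρ) × ℕ) × κ => s.1.1.1) hT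
      (Poly.fst (Poly.fst (Poly.fst Poly.id)))
  have hC1 : Poly (fun q : (α × ρ) × ℕ => C q.1.1) :=
    Poly.comp (g := C) (f := fun q : (α × ρ) × ℕ => q.1.1) hC (Poly.fst (Poly.fst Poly.id))
  have a0 : Poly (fun s : (((α × ρ) × ℕ) × κ) × ℕ => s) := Poly.id
  have a1 : Poly (fun s : (((α × ρ) × ℕ) × κ) × ℕ => s.1) := Poly.fst a0
  have a2 : Poly (fun s : (((α × ρ) × ℕ) × κ) × ℕ => s.1.1) := Poly.fst a1
  have a3 : Poly (fun s : (((α × ρ) × ℕ) × κ) × ℕ => s.1.1.1) := Poly.fst a2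
  have b1 : Poly (fun s : (((α × ρ) × ℕ) × κ) × ℕ => s.1.1.1.1) := Poly.fst a3
  have b2 : Poly (fun s : (((α × ρ) × ℕ) × κ) × ℕ => s.1.1.1.2) := Poly.snd a3
  have b3 : Poly (fun s : (((α × ρ) × ℕ) × κ) × ℕ => s.1.2) := Poly.snd a1
  have b4 : Poly (fun s : (((α × ρ) × ℕ) × κ) × ℕ => s.1.1.2) := Poly.snd a2
  have b5 : Poly (fun s : (((α × ρ) × ℕ) × κ) × ℕ => s.2) := Poly.snd a0
  have c1 : Poly (fun s : (((α × ρ) × ℕ) × κ) × ℕ =>
      (s.1.1.1.1, s.1.1.1.2, s.1.2, s.1.1.2, s.2)) :=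
    Poly.pair b1 (Poly.pair b2 (Poly.pair b3 (Poly.pair b4 b5)))
  have c2 : Poly (fun s : (((α × ρ) × ℕ) × κ) × ℕ =>
      f s.1.1.1.1 s.1.1.1.2 s.1.2 s.1.1.2 s.2) :=
    Poly.comp (g := fun x : α × ρ × κ × ℕ × ℕ => f x.1 x.2.1 x.2.2.1 x.2.2.2.1 x.2.2.2.2)
      (f := fun s : (((α × ρ) × ℕ) × κ) × ℕ => (s.1.1.1.1, s.1.1.1.2, s.1.2, s.1.1.2, s.2)) hf c1
  have d1 : Poly (fun s : ((α × ρ) × ℕ) × κ => (List.range (T s.1.1.1)).map fun y =>
      f s.1.1.1 s.1.1.2 s.2 s.1.2 y) :=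
    Pool.Agent.NPC.Poly.map (l := fun s : ((α × ρ) × ℕ) × κ => List.range (T s.1.1.1))
      (F := fun (s : ((α × ρ) × ℕ) × κ) (y : ℕ) => f s.1.1.1 s.1.1.2 s.2 s.1.2 y) hT2.range c2
  have d2 : Poly (fun q : (α × ρ) × ℕ => (C q.1.1).flatMap fun c =>
      (List.range (T q.1.1)).map fun y => f q.1.1 q.1.2 c q.2 y) :=
    Poly.flatMap (l := fun q : (α × ρ) × ℕ => C q.1.1)
      (F := fun (q : (α × ρ) × ℕ) (c : κ) => (List.range (T q.1.1)).map fun y =>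
        f q.1.1 q.1.2 c q.2 y) hC1 d1
  have d3 : Poly (fun p : α × ρ => (List.range (T p.1)).map fun x => (C p.1).flatMap fun c =>
      (List.range (T p.1)).map fun y => f p.1 p.2 c x y) :=
    Pool.Agent.NPC.Poly.map (l := fun p : α × ρ => List.range (T p.1))
      (F := fun (p : α × ρ) (x : ℕ) => (C p.1).flatMap fun c =>
        (List.range (T p.1)).map fun y => f p.1 p.2 c x y) hT1.range d2
  have d4 : Poly (fun a => (R a).flatMap fun r => (List.range (T a)).map fun x =>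
      (C a).flatMap fun c => (List.range (T a)).map fun y => f a r c x y) :=
    Poly.flatMap (l := R) (F := fun (a : α) (r : ρ) => (List.range (T a)).map fun x =>
      (C a).flatMap fun c => (List.range (T a)).map fun y => f a r c x y) hR d3
  exact d4

end Pool.Agent.R441.LRPB
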