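import Pool.Agent.R441.Cyc

/-! The products `S_p(x)` over the quadratic residues: basic identities. -/

set_option autoImplicit false
set_option linter.all false

namespace Pool.Agent.R441

open Finset ZMod

variable {p : ℕ} [hp : Fact p.Prime]

/-- residues (`s = 1`) or nonresidues (`s = -1`) -/
noncomputable def RR (p : ℕ) [Fact p.Prime] (s : ℤ) : Finset (ZMod p) :=
  univ.filter fun r => quadraticChar (ZMod p) r = s

/-- the product over the residues (`s = 1`) or nonresidues (`s = -1`) -/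
noncomputable def Q (p : ℕ) [Fact p.Prime] (s : ℤ) (x : ℂ) : ℂ :=
  ∏ r ∈ RR p s, (x - stdAddChar r)

theorem mem_RR {s : ℤ} {r : ZMod p} : r ∈ RR p s ↔ quadraticChar (ZMod p) r = s := by
  simp [RR]

theorem std_nat (n : ℕ) : (stdAddChar ((n : ℕ) : ZMod p) : ℂ) =
    Complex.exp (2 * Real.pi * Complex.I * n / p) := by
  have := ZMod.stdAddChar_coe (N := p) (n : ℤ)
  push_cast at this
  exact this

theorem prim_std : IsPrimitiveRoot (stdAddChar (1 : ZMod p) : ℂ) p := by
  have h1 := Complex.isPrimitiveRoot_exp p hp.out.ne_zero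
  have h2 := std_nat (p := p) 1
  rw [Nat.cast_one, Nat.cast_one, mul_one] at h2
  rw [h2]
  exact h1

theorem std_pow (r : ZMod p) : (stdAddChar r : ℂ) ^ p = 1 := by
  rw [← AddChar.map_nsmul_eq_pow]
  simp

theorem roots_eq : Polynomial.nthRootsFinset p (1 : ℂ) =
    univ.image (fun r : ZMod p => (stdAddChar r : ℂ)) := by
  symm
  apply Finset.eq_of_subset_of_card_le
  · intro z hz
    obtain ⟨r, _, rfl⟩ := Finset.mem_image.1 hz
    rw [Polynomial.mem_nthRootsFinset hp.out.pos]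
    exact std_pow r
  · rw [prim_std.card_nthRootsFinset, Finset.card_image_of_injective _ (injective_stdAddChar (N := p)),
      Finset.card_univ, ZMod.card]

/-- the all-residue product -/
theorem prod_all (x : ℂ) : ∏ r : ZMod p, (x - stdAddChar r) = x ^ p - 1 := by
  have h3 := prim_std.pow_sub_pow_eq_prod_sub_mul x 1 hp.out.pos
  rw [one_pow] at h3
  rw [h3, roots_eq, Finset.prod_image (fun a _ b _ h => injective_stdAddChar (N := p) h)]
  simp only [mul_one]

theorem univ_eq : (univ : Finset (ZMod p)) = insert 0 (RR p 1 ∪ RR p (-1)) := by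
  ext r
  simp only [mem_univ, mem_insert, mem_union, mem_RR, true_iff]
  by_cases h : r = 0
  · left; exact h
  · right
    rcases quadraticChar_dichotomy h with h1 | h1
    · left; exact h1
    · right; exact h1

theorem disj : Disjoint (RR p 1) (RR p (-1)) := by
  rw [Finset.disjoint_left]
  intro r h1 h2
  rw [mem_RR] at h1 h2
  rw [h1] at h2
  norm_num at h2

theorem zero_notMem : (0 : ZMod p) ∉ (RR p 1 ∪ RR p (-1)) := by
  simp only [mem_union, mem_RR, map_zero]
  norm_num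

theorem Q_mul (x : ℂ) : (x - 1) * (Q p 1 x * Q p (-1) x) = x ^ p - 1 := by
  rw [← prod_all (p := p) x, univ_eq, Finset.prod_insert zero_notMem, Finset.prod_union disj,
    AddChar.map_zero_eq_one]
  rfl

/-- scaling -/
theorem Q_scale {u : ZMod p} (hu : u ≠ 0) (s : ℤ) (f : ZMod p → ℂ) :
    ∏ r ∈ RR p s, f (u * r) = ∏ r ∈ RR p (quadraticChar (ZMod p) u * s), f r := by
  have hχ : quadraticChar (ZMod p) u * quadraticChar (ZMod p) u = 1 := by
    rcases quadraticChar_dichotomy hu with h | h <;> rw [h] <;> norm_num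
  apply Finset.prod_bij (i := fun r _ => u * r)
  · intro r hr
    rw [mem_RR] at hr ⊢
    rw [map_mul, hr]
  · intro a _ b _ h
    exact mul_left_cancel₀ hu h
  · intro r hr
    rw [mem_RR] at hr
    refine ⟨u⁻¹ * r, ?_, ?_⟩
    · rw [mem_RR, map_mul, hr]
      have h1 : quadraticChar (ZMod p) u⁻¹ = quadraticChar (ZMod p) u := by
        have h2 : quadraticChar (ZMod p) u⁻¹ * quadraticChar (ZMod p) u = 1 := by
          rw [← map_mul, inv_mul_cancel₀ hu, map_one]
        rcases quadraticChar_dichotomy hu with h | h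
        · rw [h] at h2 ⊢; linarith
        · rw [h] at h2 ⊢; linarith
      rw [h1, ← mul_assoc, hχ, one_mul]
    · rw [← mul_assoc, mul_inv_cancel₀ hu, one_mul]
  · intro r _
    rfl

theorem RR_card (hp2 : p ≠ 2) {s : ℤ} (hs : s = 1 ∨ s = -1) : (RR p s).card = (p - 1) / 2 := by
  have hsum : ∑ a : ZMod p, quadraticChar (ZMod p) a = 0 :=
    quadraticChar_sum_zero (by rwa [ZMod.ringChar_zmod_n])
  have h1 : (univ : Finset (ZMod p)).card = 1 + ((RR p 1).card + (RR p (-1)).card) := by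
    rw [univ_eq, Finset.card_insert_of_notMem zero_notMem, Finset.card_union_of_disjoint disj]
    ring
  rw [Finset.card_univ, ZMod.card] at h1
  have h2 : ((RR p 1).card : ℤ) - (RR p (-1)).card = 0 := by
    rw [univ_eq, Finset.sum_insert zero_notMem, Finset.sum_union disj, MulChar.map_zero, zero_add] at hsum
    rw [Finset.sum_congr rfl (g := fun _ => (1 : ℤ)) (fun r hr => mem_RR.1 hr),
      Finset.sum_congr rfl (g := fun _ => (-1 : ℤ)) (fun r hr => mem_RR.1 hr)] at hsum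
    simp only [Finset.sum_const, nsmul_eq_mul] at hsum
    linarith
  rcases hs with rfl | rfl <;> omega

theorem roots_range {m : ℕ} (hm : 0 < m) {η : ℂ} (hη : IsPrimitiveRoot η m) :
    Polynomial.nthRootsFinset m (1 : ℂ) = (range m).image (fun j => η ^ j) := by
  symm
  apply Finset.eq_of_subset_of_card_le
  · intro z hz
    obtain ⟨j, _, rfl⟩ := Finset.mem_image.1 hz
    rw [Polynomial.mem_nthRootsFinset hm, ← pow_mul, mul_comm, pow_mul, hη.pow_eq_one, one_pow]
  · rw [hη.card_nthRootsFinset, Finset.card_image_of_injOn, Finset.card_range]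
    intro a ha b hb h
    exact hη.pow_inj (Finset.mem_range.1 ha) (Finset.mem_range.1 hb) h

theorem pow_sub_range {m : ℕ} (hm : 0 < m) {η : ℂ} (hη : IsPrimitiveRoot η m) (x y : ℂ) :
    x ^ m - y ^ m = ∏ j ∈ range m, (x - η ^ j * y) := by
  rw [hη.pow_sub_pow_eq_prod_sub_mul x y hm, roots_range hm hη, Finset.prod_image]
  intro a ha b hb h
  exact hη.pow_inj (Finset.mem_range.1 ha) (Finset.mem_range.1 hb) h

theorem Q_pow (hp2 : p ≠ 2) {m : ℕ} (hm : 0 < m) (hmp : (m : ZMod p) ≠ 0) {η : ℂ}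
    (hη : IsPrimitiveRoot η m) {s : ℤ} (hs : s = 1 ∨ s = -1) (x : ℂ) :
    Q p (quadraticChar (ZMod p) (m : ZMod p) * s) (x ^ m) =
      (∏ j ∈ range m, ((η⁻¹) ^ j) ^ ((p - 1) / 2)) * ∏ j ∈ range m, Q p s (η ^ j * x) := by
  have hη0 : η ≠ 0 := hη.ne_zero hm.ne'
  have h1 : Q p (quadraticChar (ZMod p) (m : ZMod p) * s) (x ^ m) =
      ∏ r ∈ RR p s, ∏ j ∈ range m, (x - (η⁻¹) ^ j * stdAddChar r) := by
    unfold Q
    rw [← Q_scale hmp s (fun r => x ^ m - stdAddChar r)]
    refine Finset.prod_congr rfl fun r _ => ?_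
    rw [← pow_sub_range hm hη.inv, ← AddChar.map_nsmul_eq_pow, nsmul_eq_mul]
  rw [h1, Finset.prod_comm, ← Finset.prod_mul_distrib]
  refine Finset.prod_congr rfl fun j _ => ?_
  unfold Q
  rw [← RR_card hp2 hs, ← Finset.prod_const, ← Finset.prod_mul_distrib]
  refine Finset.prod_congr rfl fun r _ => ?_
  rw [mul_sub, ← mul_assoc, inv_pow, inv_mul_cancel₀ (pow_ne_zero _ hη0), one_mul]

theorem Q_pow_odd (hp2 : p ≠ 2) {m : ℕ} (hm : 0 < m) (hodd : Odd m) (hmp : (m : ZMod p) ≠ 0) {η : ℂ}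
    (hη : IsPrimitiveRoot η m) {s : ℤ} (hs : s = 1 ∨ s = -1) (x : ℂ) :
    Q p (quadraticChar (ZMod p) (m : ZMod p) * s) (x ^ m) = ∏ j ∈ range m, Q p s (η ^ j * x) := by
  rw [Q_pow hp2 hm hmp hη hs]
  have h1 : ∏ j ∈ range m, ((η⁻¹) ^ j) ^ ((p - 1) / 2) = 1 := by
    rw [Finset.prod_pow, Finset.prod_pow_eq_pow_sum, Finset.sum_range_id]
    obtain ⟨k, rfl⟩ := hodd
    have h2 : (2 * k + 1) * (2 * k + 1 - 1) / 2 = (2 * k + 1) * k := by
      rw [Nat.add_sub_cancel]
      have : (2 * k + 1) * (2 * k) = 2 * ((2 * k + 1) * k) := by ring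
      rw [this, Nat.mul_div_cancel_left _ (by norm_num)]
    rw [h2, pow_mul, inv_pow, hη.pow_eq_one, inv_one, one_pow, one_pow]
  rw [h1, one_mul]

theorem cast_ne {n : ℕ} (h0 : 0 < n) (hn : n < p) : (n : ZMod p) ≠ 0 := by
  intro h
  rw [ZMod.natCast_eq_zero_iff] at h
  exact absurd (Nat.le_of_dvd h0 h) (by omega)

theorem Q_sq (hp2 : p ≠ 2) {s : ℤ} (hs : s = 1 ∨ s = -1) (x : ℂ) :
    Q p (quadraticChar (ZMod p) 2 * s) (x ^ 2) =
      (-1) ^ ((p - 1) / 2) * (Q p s x * Q p s (-x)) := by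
  have h2 : ((2 : ℕ) : ZMod p) ≠ 0 :=
    cast_ne (by norm_num) (lt_of_le_of_ne hp.out.two_le (Ne.symm hp2))
  have hm1 : IsPrimitiveRoot (-1 : ℂ) 2 := IsPrimitiveRoot.neg_one 0 (by norm_num)
  have := Q_pow hp2 (by norm_num) h2 hm1 hs x
  rw [Nat.cast_ofNat] at this
  rw [this]
  simp only [Finset.prod_range_succ, Finset.prod_range_zero, pow_zero, pow_one, one_mul, one_pow]
  norm_num

theorem sum_RR (hp3 : 3 < p) (s : ℤ) : ∑ r ∈ RR p s, r = 0 := by
  have h2 : ((2 : ℕ) : ZMod p) ≠ 0 := cast_ne (by norm_num) (by omega)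
  have h4 : ((4 : ℕ) : ZMod p) ≠ 0 := by
    have : ((4 : ℕ) : ZMod p) = ((2 : ℕ) : ZMod p) * ((2 : ℕ) : ZMod p) := by push_cast; norm_num
    rw [this]
    exact mul_ne_zero h2 h2
  have h3 : ((3 : ℕ) : ZMod p) ≠ 0 := cast_ne (by norm_num) hp3
  have hχ : quadraticChar (ZMod p) ((4 : ℕ) : ZMod p) = 1 := by
    rw [quadraticChar_one_iff_isSquare h4]
    exact ⟨2, by push_cast; norm_num⟩
  have h5 : ∑ r ∈ RR p s, ((4 : ℕ) : ZMod p) * r = ∑ r ∈ RR p s, r := by
    apply Finset.sum_bij (i := fun r _ => ((4 : ℕ) : ZMod p) * r)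
    · intro r hr
      rw [mem_RR] at hr ⊢
      rw [map_mul, hr, hχ, one_mul]
    · intro a _ b _ h
      exact mul_left_cancel₀ h4 h
    · intro r hr
      rw [mem_RR] at hr
      refine ⟨((4 : ℕ) : ZMod p)⁻¹ * r, ?_, ?_⟩
      · rw [mem_RR, map_mul, hr]
        have h2 : quadraticChar (ZMod p) (((4 : ℕ) : ZMod p))⁻¹ * quadraticChar (ZMod p) ((4 : ℕ) : ZMod p) = 1 := by
          rw [← map_mul, inv_mul_cancel₀ h4, map_one]
        rw [hχ, mul_one] at h2
        rw [h2, one_mul]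
      · rw [← mul_assoc, mul_inv_cancel₀ h4, one_mul]
    · intro r _
      rfl
  rw [← Finset.mul_sum] at h5
  have h6 : ((3 : ℕ) : ZMod p) * ∑ r ∈ RR p s, r = 0 := by
    have : ((3 : ℕ) : ZMod p) = ((4 : ℕ) : ZMod p) - 1 := by push_cast; norm_num
    rw [this, sub_mul, h5, one_mul, sub_self]
  exact (mul_eq_zero.1 h6).resolve_left h3

theorem neg_one_ne : (-1 : ZMod p) ≠ 0 := neg_ne_zero.2 one_ne_zero

theorem RR_neg (s : ℤ) (f : ZMod p → ℂ) :
    ∏ r ∈ RR p s, f (-r) = ∏ r ∈ RR p (quadraticChar (ZMod p) (-1) * s), f r := by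
  have := Q_scale (neg_one_ne (p := p)) s f
  simpa only [neg_one_mul] using this

theorem std_prod (T : Finset (ZMod p)) (f : ZMod p → ZMod p) :
    ∏ r ∈ T, (stdAddChar (f r) : ℂ) = stdAddChar (∑ r ∈ T, f r) := by
  induction T using Finset.induction_on with
  | empty => rw [Finset.prod_empty, Finset.sum_empty, AddChar.map_zero_eq_one]
  | insert a T ha ih => rw [Finset.prod_insert ha, Finset.sum_insert ha, ih, AddChar.map_add_eq_mul]

/-- inversion -/
theorem Q_inv (hp3 : 3 < p) {s : ℤ} (hs : s = 1 ∨ s = -1) {x : ℂ} (hx : x ≠ 0) :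
    Q p s x⁻¹ * x ^ ((p - 1) / 2) =
      (-1) ^ ((p - 1) / 2) * Q p (quadraticChar (ZMod p) (-1) * s) x := by
  have hc := RR_card (p := p) (by omega) hs
  have h1 : Q p (quadraticChar (ZMod p) (-1) * s) x = ∏ r ∈ RR p s, (x - stdAddChar (-r)) := by
    unfold Q
    rw [← RR_neg s (fun r => x - stdAddChar r)]
  have h2 : ∏ r ∈ RR p s, (stdAddChar (-r) : ℂ) = 1 := by
    rw [std_prod, Finset.sum_neg_distrib, sum_RR hp3, neg_zero, AddChar.map_zero_eq_one]
  have h5 : Q p s x⁻¹ * x ^ ((p - 1) / 2) =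
      (∏ r ∈ RR p s, (x⁻¹ - stdAddChar r) * x) * ∏ r ∈ RR p s, (stdAddChar (-r) : ℂ) := by
    rw [h2, mul_one, Finset.prod_mul_distrib, Finset.prod_const, hc]
    rfl
  rw [h5, h1, ← Finset.prod_mul_distrib, ← hc, ← Finset.prod_const, ← Finset.prod_mul_distrib]
  refine Finset.prod_congr rfl fun r _ => ?_
  have h3 : (stdAddChar r : ℂ) * stdAddChar (-r) = 1 := by
    rw [← AddChar.map_add_eq_mul, add_neg_cancel, AddChar.map_zero_eq_one]
  rw [sub_mul, inv_mul_cancel₀ hx]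
  linear_combination -x * h3

/-- complex conjugation -/
theorem Q_conj (s : ℤ) (x : ℂ) :
    (starRingEnd ℂ) (Q p s x) = Q p (quadraticChar (ZMod p) (-1) * s) ((starRingEnd ℂ) x) := by
  unfold Q
  rw [map_prod, ← RR_neg s (fun r => (starRingEnd ℂ) x - stdAddChar r)]
  refine Finset.prod_congr rfl fun r _ => ?_
  rw [map_sub, AddChar.map_neg_eq_conj]

/-- the product over `k²` -/
theorem S_eq (hp2 : p ≠ 2) (x : ℂ) : S p x = Q p 1 x := by
  unfold S Q
  have hpodd : p % 2 = 1 := (Nat.Prime.eq_two_or_odd hp.out).resolve_left hp2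
  apply Finset.prod_bij (i := fun k _ => ((k : ℕ) : ZMod p) ^ 2)
  · intro k hk
    rw [Finset.mem_Icc] at hk
    have hk0 : (k : ZMod p) ≠ 0 := cast_ne (by omega) (by omega)
    rw [mem_RR, quadraticChar_one_iff_isSquare (pow_ne_zero 2 hk0)]
    exact ⟨k, by ring⟩
  · intro a ha b hb h
    rw [Finset.mem_Icc] at ha hb
    have h1 : ((a : ZMod p) - b) * (a + b) = 0 := by linear_combination h
    rcases mul_eq_zero.1 h1 with h2 | h2
    · have h3 : (a : ZMod p) = b := sub_eq_zero.1 h2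
      rw [ZMod.natCast_eq_natCast_iff', Nat.mod_eq_of_lt (by omega), Nat.mod_eq_of_lt (by omega)] at h3
      exact h3
    · exfalso
      rw [← Nat.cast_add, ZMod.natCast_eq_zero_iff] at h2
      have := Nat.le_of_dvd (by omega) h2
      omega
  · intro r hr
    rw [mem_RR] at hr
    have hr0 : r ≠ 0 := by
      rintro rfl
      rw [MulChar.map_zero] at hr
      norm_num at hr
    rw [quadraticChar_one_iff_isSquare hr0] at hr
    obtain ⟨y, rfl⟩ := hr
    have hy0 : y ≠ 0 := fun h => hr0 (by rw [h, mul_zero])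
    refine ⟨y.valMinAbs.natAbs, ?_, ?_⟩
    · rw [Finset.mem_Icc]
      constructor
      · rw [Nat.one_le_iff_ne_zero, Ne, Int.natAbs_eq_zero, ZMod.valMinAbs_eq_zero]
        exact hy0
      · have := ZMod.natAbs_valMinAbs_le y
        omega
    · calc ((y.valMinAbs.natAbs : ℕ) : ZMod p) ^ 2
          = (((y.valMinAbs.natAbs : ℕ) : ℤ) : ZMod p) ^ 2 := by rw [Int.cast_natCast]
        _ = ((y.valMinAbs : ℤ) : ZMod p) ^ 2 := by
            rw [← Int.cast_pow, Int.natAbs_sq, Int.cast_pow]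
        _ = y * y := by rw [ZMod.coe_valMinAbs, sq]
  · intro k hk
    have e : ((k : ℕ) : ZMod p) ^ 2 = ((k ^ 2 : ℕ) : ZMod p) := by push_cast; rfl
    rw [e, std_nat]
    push_cast
    rfl

end Pool.Agent.R441
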