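import Pool.Agent.R441.Sp

/-! The argument of `S_p(e(α))`. -/

set_option autoImplicit false
set_option linter.all false

namespace Pool.Agent.R441

open Finset ZMod Real

variable {p : ℕ} [hp : Fact p.Prime]

/-- `e(α) = exp(2πiα)` -/
noncomputable def ee (α : ℝ) : ℂ := Complex.exp (2 * π * Complex.I * α)

theorem fac (α β : ℝ) : ee α - ee β =
    ((2 * Real.sin (π * (α - β)) : ℝ) : ℂ) * (Complex.I * Complex.exp (π * Complex.I * (α + β))) := by
  unfold ee
  have h1 : (2 * π * Complex.I * α : ℂ) = π * Complex.I * (α + β) + (π * (α - β)) * Complex.I := by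
    ring
  have h2 : (2 * π * Complex.I * β : ℂ) = π * Complex.I * (α + β) + -((π * (α - β)) * Complex.I) := by
    ring
  have hs : ((2 * Real.sin (π * (α - β)) : ℝ) : ℂ) = 2 * Complex.sin (π * (α - β)) := by
    push_cast; ring
  rw [h1, h2, Complex.exp_add, Complex.exp_add, hs, Complex.sin]
  have hI := Complex.I_sq
  have e1 : (-(π * (α - β)) * Complex.I : ℂ) = -(π * (α - β) * Complex.I) := by ring
  rw [e1]
  linear_combination ((Complex.exp (π * Complex.I * (α + β)) * (Complex.exp (π * (α - β) * Complex.I)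
    - Complex.exp (-(π * (α - β) * Complex.I))))) * hI

theorem std_val (r : ZMod p) : (stdAddChar r : ℂ) = ee ((r.val : ℝ) / p) := by
  unfold ee
  conv_lhs => rw [← ZMod.natCast_zmod_val r]
  rw [std_nat]
  congr 1
  push_cast
  ring

theorem sin_sign {α β : ℝ} (ha : 0 < α) (ha' : α < 1) (hb : 0 ≤ β) (hb' : β < 1) (hne : β ≠ α) :
    ∃ P : ℝ, 0 < P ∧ 2 * Real.sin (π * (α - β)) = (if α < β then -1 else 1) * P := by
  have hpi := Real.pi_pos
  split_ifs with h
  · refine ⟨-(2 * Real.sin (π * (α - β))), ?_, by ring⟩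
    have : 0 < Real.sin (π * (β - α)) := by
      apply Real.sin_pos_of_pos_of_lt_pi
      · exact mul_pos hpi (by linarith)
      · have : β - α < 1 := by linarith
        nlinarith
    have e : Real.sin (π * (α - β)) = -Real.sin (π * (β - α)) := by
      rw [← Real.sin_neg]; congr 1; ring
    rw [e]; linarith
  · have h2 : β < α := lt_of_le_of_ne (not_lt.1 h) hne
    refine ⟨2 * Real.sin (π * (α - β)), ?_, by ring⟩
    have : 0 < Real.sin (π * (α - β)) := by
      apply Real.sin_pos_of_pos_of_lt_pi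
      · exact mul_pos hpi (by linarith)
      · have : α - β < 1 := by linarith
        nlinarith
    linarith

theorem Q_sign_aux (T : Finset (ZMod p)) {α : ℝ} (ha : 0 < α) (ha' : α < 1)
    (hne : ∀ r ∈ T, (r.val : ℝ) ≠ α * p) :
    ∃ P : ℝ, 0 < P ∧ ∏ r ∈ T, (ee α - stdAddChar r) =
      P * (-1) ^ (T.filter fun r => α * p < (r.val : ℝ)).card * Complex.I ^ T.card *
        Complex.exp (π * Complex.I * (T.card * α + (∑ r ∈ T, (r.val : ℝ)) / p)) := by
  have hp0 : (0 : ℝ) < p := by exact_mod_cast hp.out.pos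
  induction T using Finset.induction_on with
  | empty => exact ⟨1, one_pos, by simp⟩
  | insert a T haT ih =>
    obtain ⟨P, hP, h1⟩ := ih fun r hr => hne r (Finset.mem_insert_of_mem hr)
    have hlt : ((a.val : ℕ) : ℝ) < p := by exact_mod_cast ZMod.val_lt a
    have hb : (0 : ℝ) ≤ (a.val : ℝ) / p := by positivity
    have hb' : (a.val : ℝ) / p < 1 := by rw [div_lt_one hp0]; exact hlt
    have hn : (a.val : ℝ) / p ≠ α := by
      intro h
      apply hne a (Finset.mem_insert_self a T)
      rw [← h]; field_simp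
    obtain ⟨R, hR, h2⟩ := sin_sign ha ha' hb hb' hn
    refine ⟨P * R, mul_pos hP hR, ?_⟩
    rw [Finset.prod_insert haT, h1, std_val, fac, h2, Finset.card_insert_of_notMem haT,
      Finset.sum_insert haT, Finset.filter_insert]
    have e1 : (π * Complex.I * (((T.card + 1 : ℕ) : ℂ) * α + (((a.val : ℝ) + ∑ r ∈ T, (r.val : ℝ) : ℝ) : ℂ) / p) : ℂ) =
        π * Complex.I * (α + ((a.val : ℝ) / p : ℝ)) +
          π * Complex.I * (T.card * α + ((∑ r ∈ T, (r.val : ℝ) : ℝ) : ℂ) / p) := by
      push_cast; ring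
    have e2 : (α < (a.val : ℝ) / p) ↔ α * p < (a.val : ℝ) := lt_div_iff₀ hp0
    by_cases h : α * p < (a.val : ℝ)
    · rw [if_pos h, if_pos (e2.2 h), Finset.card_insert_of_notMem (fun h' => haT (Finset.mem_filter.1 h').1)]
      have e1' := e1
      push_cast at e1' ⊢
      rw [e1', Complex.exp_add]
      ring
    · rw [if_neg h, if_neg (fun h' => h (e2.1 h'))]
      have e1' := e1
      push_cast at e1' ⊢
      rw [e1', Complex.exp_add]
      ring

theorem RR_neg_sum (s : ℤ) (f : ZMod p → ℕ) :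
    ∑ r ∈ RR p s, f (-r) = ∑ r ∈ RR p (quadraticChar (ZMod p) (-1) * s), f r := by
  have h1 : quadraticChar (ZMod p) (-1) * quadraticChar (ZMod p) (-1) = 1 := by
    rw [← map_mul]; norm_num
  apply Finset.sum_bij (i := fun r _ => -r)
  · intro r hr
    rw [mem_RR] at hr ⊢
    rw [← neg_one_mul, map_mul, hr]
  · intro a _ b _ h
    exact neg_injective h
  · intro r hr
    rw [mem_RR] at hr
    refine ⟨-r, ?_, neg_neg r⟩
    rw [mem_RR, ← neg_one_mul, map_mul, hr, ← mul_assoc, h1, one_mul]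
  · intro r _
    rfl

theorem ne_zero_of_mem {s : ℤ} (hs : s = 1 ∨ s = -1) {r : ZMod p} (hr : r ∈ RR p s) : r ≠ 0 := by
  rintro rfl
  rw [mem_RR, MulChar.map_zero] at hr
  rcases hs with h | h <;> omega

/-- the sum of the residues for `p ≡ 1 mod 4` -/
theorem sum_val (hp2 : p ≠ 2) (hm : quadraticChar (ZMod p) (-1) = 1) {s : ℤ} (hs : s = 1 ∨ s = -1) :
    2 * ∑ r ∈ RR p s, r.val = (p - 1) / 2 * p := by
  have h1 := RR_neg_sum s (fun r : ZMod p => r.val)
  rw [hm, one_mul] at h1
  have h2 : ∑ r ∈ RR p s, (r.val + (-r).val) = (p - 1) / 2 * p := by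
    rw [Finset.sum_congr rfl (g := fun _ => p), Finset.sum_const, RR_card hp2 hs, smul_eq_mul]
    intro r hr
    have hr0 := ne_zero_of_mem hs hr
    haveI : NeZero r := ⟨hr0⟩
    rw [ZMod.val_neg_of_ne_zero]
    have := ZMod.val_lt r
    omega
  rw [Finset.sum_add_distrib, h1] at h2
  omega

/-- the number of `r` with `r/p < a/m` -/
noncomputable def cnt (p : ℕ) [Fact p.Prime] (s : ℤ) (a m : ℕ) : ℕ :=
  ((RR p s).filter fun r => m * r.val < a * p).card

theorem cnt_nat {s : ℤ} (hs : s = 1 ∨ s = -1) (a m : ℕ) :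
    cnt p s a m = ((range p).filter fun k : ℕ => m * k < a * p ∧
      quadraticChar (ZMod p) (k : ZMod p) = s).card := by
  unfold cnt
  apply Finset.card_bij (i := fun r _ => r.val)
  · intro r hr
    rw [Finset.mem_filter, mem_RR] at hr
    rw [Finset.mem_filter, Finset.mem_range]
    refine ⟨ZMod.val_lt r, hr.2, ?_⟩
    rw [ZMod.natCast_zmod_val]
    exact hr.1
  · intro a _ b _ h
    exact ZMod.val_injective p h
  · intro k hk
    rw [Finset.mem_filter, Finset.mem_range] at hk
    refine ⟨(k : ZMod p), ?_, ZMod.val_natCast_of_lt hk.1⟩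
    rw [Finset.mem_filter, mem_RR, ZMod.val_natCast_of_lt hk.1]
    exact ⟨hk.2.2, hk.2.1⟩

theorem cnt_add (a m : ℕ) (hm : 0 < m) (ham : a ≤ m) :
    cnt p 1 a m + cnt p (-1) a m = ((range p).filter fun k : ℕ => 1 ≤ k ∧ m * k < a * p).card := by
  rw [cnt_nat (Or.inl rfl), cnt_nat (Or.inr rfl), ← Finset.card_union_of_disjoint]
  · congr 1
    ext k
    simp only [Finset.mem_union, Finset.mem_filter, Finset.mem_range]
    constructor
    · rintro (⟨h1, h2, h3⟩ | ⟨h1, h2, h3⟩)
      · refine ⟨h1, ?_, h2⟩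
        rcases Nat.eq_zero_or_pos k with h | h
        · subst h
          rw [Nat.cast_zero, MulChar.map_zero] at h3
          norm_num at h3
        · exact h
      · refine ⟨h1, ?_, h2⟩
        rcases Nat.eq_zero_or_pos k with h | h
        · subst h
          rw [Nat.cast_zero, MulChar.map_zero] at h3
          norm_num at h3
        · exact h
    · rintro ⟨h1, h2, h3⟩
      have hk0 : (k : ZMod p) ≠ 0 := cast_ne h2 h1
      rcases quadraticChar_dichotomy hk0 with h | h
      · left; exact ⟨h1, h3, h⟩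
      · right; exact ⟨h1, h3, h⟩
  · rw [Finset.disjoint_left]
    intro k h1 h2
    rw [Finset.mem_filter] at h1 h2
    have := h1.2.2
    rw [h2.2.2] at this
    norm_num at this

/-- the value of the product up to a positive factor -/
theorem Q_sign {s : ℤ} (hp2 : p ≠ 2) (hs : s = 1 ∨ s = -1) {a m : ℕ} (ha : 0 < a) (ham : a < m)
    (hco : Nat.Coprime m p) (hm : 0 < m) (hma : ¬ m ∣ a * p) :
    ∃ P : ℝ, 0 < P ∧ Q p s (ee ((a : ℝ) / m)) =
      P * (-1) ^ ((p - 1) / 2 - cnt p s a m) * Complex.I ^ ((p - 1) / 2) *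
        Complex.exp (π * Complex.I * (((p - 1) / 2 : ℕ) * ((a : ℂ) / m) +
          ((∑ r ∈ RR p s, r.val : ℕ) : ℂ) / p)) := by
  have hm0 : (0 : ℝ) < m := by exact_mod_cast hm
  have hne : ∀ r ∈ RR p s, ((r.val : ℕ) : ℝ) ≠ (a : ℝ) / m * p := by
    intro r _ h
    apply hma
    have h1 : ((m * r.val : ℕ) : ℝ) = ((a * p : ℕ) : ℝ) := by
      push_cast
      rw [h]
      field_simp
    have h2 : m * r.val = a * p := by exact_mod_cast h1
    exact ⟨r.val, h2.symm⟩
  obtain ⟨P, hP, h⟩ := Q_sign_aux (RR p s) (α := (a : ℝ) / m) (by positivity)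
    (by rw [div_lt_one hm0]; exact_mod_cast ham) hne
  refine ⟨P, hP, ?_⟩
  unfold Q
  rw [h, RR_card hp2 hs]
  have hc : ((RR p s).filter fun r => (a : ℝ) / m * p < (r.val : ℝ)).card = (p - 1) / 2 - cnt p s a m := by
    have h1 : ((RR p s).filter fun r => (a : ℝ) / m * p < (r.val : ℝ)) =
        (RR p s).filter fun r => ¬ (m * r.val < a * p) := by
      apply Finset.filter_congr
      intro r hr
      have h2 := hne r hr
      rw [not_lt]
      have h3 : (a : ℝ) / m * p < (r.val : ℝ) ↔ ((a * p : ℕ) : ℝ) < ((m * r.val : ℕ) : ℝ) := by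
        push_cast
        rw [div_mul_eq_mul_div, div_lt_iff₀ hm0, mul_comm (r.val : ℝ)]
      rw [h3, Nat.cast_lt]
      constructor
      · intro h; exact h.le
      · intro h
        rcases h.lt_or_eq with h4 | h4
        · exact h4
        · exact absurd ⟨r.val, h4⟩ hma
    rw [h1, ← RR_card hp2 hs]
    have h5 := Finset.card_filter_add_card_filter_not (s := RR p s) (fun r => m * r.val < a * p)
    unfold cnt
    omega
  rw [hc]
  push_cast
  rfl

end Pool.Agent.R441
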