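import Pool.Agent.R497.TD.Defs
import Pool.Agent.Y86.MC.NiceB

/-! TD-BC: Borel-Cantelli along `K ^ 16`. -/

set_option autoImplicit false

namespace Pool.Agent.R441.TDBC

open MeasureTheory Filter Finset Pool.Agent.R497.TD

universe u

theorem sum_shift (c : ℕ → ℝ) (L N : ℕ) :
    ∑ n ∈ range N, (if L ≤ n then c (n + 1) else 0) = ∑ n ∈ Ioc L N, c n := by
  rw [← Finset.sum_filter]
  refine Finset.sum_bij (fun n _ => n + 1) ?_ ?_ ?_ ?_
  · intro n hn
    rw [Finset.mem_filter, Finset.mem_range] at hn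
    rw [Finset.mem_Ioc]
    omega
  · intro a _ b _ h
    omega
  · intro n hn
    rw [Finset.mem_Ioc] at hn
    refine ⟨n - 1, ?_, by omega⟩
    rw [Finset.mem_filter, Finset.mem_range]
    omega
  · intro n _
    rfl

theorem t_BC : S_BC.{u} := by
  intro Ω _ ν _ c hcm hc h
  -- for every j the averages tend to 0 a.e.
  have hj : ∀ j : ℕ, ∀ᵐ ω ∂ν, Tendsto (fun l : ℕ => (1 / (((l + 1) ^ 16 : ℕ) : ℝ)) *
      ∑ n ∈ Ioc ⌊(1 / ((j : ℝ) + 1)) * (((l + 1) ^ 16 : ℕ) : ℝ)⌋₊ ((l + 1) ^ 16), c n ω)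
      atTop (nhds 0) := by
    intro j
    obtain ⟨C, hC⟩ := h j
    obtain ⟨K0, hK0⟩ := eventually_atTop.1 hC
    set g : ℕ → Ω → ℝ := fun K ω => ((1 / ((K ^ 16 : ℕ) : ℝ)) * ∑ n ∈ range (K ^ 16),
      if ⌊(1 / ((j : ℝ) + 1)) * ((K ^ 16 : ℕ) : ℝ)⌋₊ ≤ n then c (n + 1) ω else 0) with hg
    have hgm : ∀ K, Measurable (g K) := by
      intro K
      refine Measurable.const_mul ?_ _
      refine Finset.measurable_sum _ ?_
      intro n _
      by_cases hn : ⌊(1 / ((j : ℝ) + 1)) * ((K ^ 16 : ℕ) : ℝ)⌋₊ ≤ n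
      · simp only [hn, if_true]; exact hcm _
      · simp only [hn, if_false]; exact measurable_const
    have hgb : ∀ K ω, |g K ω| ≤ 1 := by
      intro K ω
      have h1 : |∑ n ∈ range (K ^ 16),
          if ⌊(1 / ((j : ℝ) + 1)) * ((K ^ 16 : ℕ) : ℝ)⌋₊ ≤ n then c (n + 1) ω else 0| ≤
          ((K ^ 16 : ℕ) : ℝ) := by
        refine (Finset.abs_sum_le_sum_abs _ _).trans ?_
        calc ∑ n ∈ range (K ^ 16),
              |if ⌊(1 / ((j : ℝ) + 1)) * ((K ^ 16 : ℕ) : ℝ)⌋₊ ≤ n then c (n + 1) ω else 0|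
            ≤ ∑ n ∈ range (K ^ 16), (1 : ℝ) := by
              refine Finset.sum_le_sum ?_
              intro n _
              split_ifs
              · exact hc _ _
              · simp
          _ = ((K ^ 16 : ℕ) : ℝ) := by simp
      simp only [hg]
      rw [abs_mul]
      rcases Nat.eq_zero_or_pos (K ^ 16) with h0 | h0
      · rw [h0]; simp
      · have h0' : (0 : ℝ) < ((K ^ 16 : ℕ) : ℝ) := by exact_mod_cast h0
        rw [abs_of_pos (by positivity), one_div, inv_mul_le_iff₀ h0', mul_one]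
        exact h1
    have hint : ∀ K, Integrable (fun ω => (g K ω) ^ 2) ν := by
      intro K
      refine Integrable.of_bound ((hgm K).pow_const 2).aestronglyMeasurable 1 ?_
      refine ae_of_all _ fun ω => ?_
      rw [Real.norm_eq_abs, abs_pow]
      exact pow_le_one₀ (abs_nonneg _) (hgb K ω)
    have hsum : ∀ᵐ ω ∂ν, Summable fun l : ℕ => (g (l + (K0 + 1)) ω) ^ 2 := by
      refine Pool.Agent.Y86.MC.ae_summable_of ν (fun l ω => (g (l + (K0 + 1)) ω) ^ 2)
        (fun l => (hgm _).pow_const 2) (fun l x => sq_nonneg _)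
        (fun l : ℕ => C / (((l + (K0 + 1) : ℕ) : ℝ)) ^ 2) ?_ (fun l => hint _) ?_
      · have h1 : Summable fun n : ℕ => C / ((n : ℝ)) ^ 2 := by
          have h2 := (Real.summable_one_div_nat_pow (p := 2)).2 (by norm_num)
          have h3 := h2.mul_left C
          refine h3.congr ?_
          intro n
          ring
        exact (summable_nat_add_iff (K0 + 1)).2 h1
      · intro l
        exact hK0 (l + (K0 + 1)) (by omega)
    filter_upwards [hsum] with ω hω
    have h1 := hω.tendsto_atTop_zero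
    have h2 : Tendsto (fun l : ℕ => g (l + (K0 + 1)) ω) atTop (nhds 0) := by
      have h3 := h1.sqrt
      rw [Real.sqrt_zero] at h3
      have h4 : (fun l : ℕ => √((g (l + (K0 + 1)) ω) ^ 2)) = fun l => |g (l + (K0 + 1)) ω| := by
        funext l
        exact Real.sqrt_sq_eq_abs _
      rw [h4] at h3
      exact (tendsto_zero_iff_abs_tendsto_zero _).2 h3
    have h3 : Tendsto (fun K : ℕ => g K ω) atTop (nhds 0) := (tendsto_add_atTop_iff_nat (K0 + 1)).1 h2
    have h4 := (tendsto_add_atTop_iff_nat 1).2 h3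
    refine h4.congr ?_
    intro l
    simp only [hg]
    rw [sum_shift (fun n => c n ω)]
  have hall : ∀ᵐ ω ∂ν, ∀ j : ℕ, Tendsto (fun l : ℕ => (1 / (((l + 1) ^ 16 : ℕ) : ℝ)) *
      ∑ n ∈ Ioc ⌊(1 / ((j : ℝ) + 1)) * (((l + 1) ^ 16 : ℕ) : ℝ)⌋₊ ((l + 1) ^ 16), c n ω)
      atTop (nhds 0) := ae_all_iff.2 hj
  filter_upwards [hall] with ω hω
  have h1 := Pool.Agent.Y86.MC.det (c := fun n => ((c n ω : ℝ) : ℂ))
    (fun n => by rw [Complex.norm_real, Real.norm_eq_abs]; exact hc n ω)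
    (fun j => ⟨16, by norm_num, by
      have h2 := (Complex.continuous_ofReal.tendsto 0).comp (hω j)
      rw [Complex.ofReal_zero] at h2
      refine h2.congr ?_
      intro l
      simp only [Function.comp]
      push_cast
      rfl⟩)
  have h2 := (Complex.continuous_re.tendsto 0).comp h1
  rw [Complex.zero_re] at h2
  refine h2.congr ?_
  intro N
  simp only [Function.comp]
  have : (1 / (N : ℂ)) * ∑ n ∈ Icc 1 N, ((c n ω : ℝ) : ℂ) =
      (((1 / (N : ℝ)) * ∑ n ∈ Icc 1 N, c n ω : ℝ) : ℂ) := by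
    push_cast
    rfl
  rw [this, Complex.ofReal_re]

end Pool.Agent.R441.TDBC
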