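import Pool.Agent.R537.TE.Stm

/-!
# TE-ONE: the function of one variable (project TE, MP_507a1e_gt)
-/

set_option autoImplicit false

namespace Pool.Agent.R441.TEONE

open Real Pool.Agent.R537.TE

/-- the function without the factor -/
noncomputable def hh (x : ℝ) : ℝ := (1 - cos (2 * π * x)) + (1 - cos (6 * π * x))

theorem hh_neg (x : ℝ) : hh (-x) = hh x := by
  unfold hh
  rw [mul_neg, mul_neg, cos_neg, cos_neg]

theorem hh_abs (x : ℝ) : hh |x| = hh x := by
  rcases abs_choice x with h | h <;> rw [h]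
  exact hh_neg x

theorem hh_lower (x : ℝ) (hx : |x| ≤ 1 / 2) : 8 * x ^ 2 ≤ hh x := by
  have h1 : cos (2 * π * x) ≤ 1 - 2 / π ^ 2 * (2 * π * x) ^ 2 := by
    apply Real.cos_le_one_sub_mul_cos_sq
    rw [abs_mul, abs_of_pos (by positivity : (0:ℝ) < 2 * π)]
    nlinarith [Real.pi_pos]
  have h2 : 2 / π ^ 2 * (2 * π * x) ^ 2 = 8 * x ^ 2 := by
    have := Real.pi_ne_zero
    field_simp; ring
  have h3 := Real.cos_le_one (6 * π * x)
  unfold hh
  linarith

theorem hh_lower' (x : ℝ) (hx : |x| ≤ 1 / 6) : 80 * x ^ 2 ≤ hh x := by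
  have h1 : cos (2 * π * x) ≤ 1 - 2 / π ^ 2 * (2 * π * x) ^ 2 := by
    apply Real.cos_le_one_sub_mul_cos_sq
    rw [abs_mul, abs_of_pos (by positivity : (0:ℝ) < 2 * π)]
    nlinarith [Real.pi_pos]
  have h2 : 2 / π ^ 2 * (2 * π * x) ^ 2 = 8 * x ^ 2 := by
    have := Real.pi_ne_zero
    field_simp; ring
  have h3 : cos (6 * π * x) ≤ 1 - 2 / π ^ 2 * (6 * π * x) ^ 2 := by
    apply Real.cos_le_one_sub_mul_cos_sq
    rw [abs_mul, abs_of_pos (by positivity : (0:ℝ) < 6 * π)]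
    nlinarith [Real.pi_pos]
  have h4 : 2 / π ^ 2 * (6 * π * x) ^ 2 = 72 * x ^ 2 := by
    have := Real.pi_ne_zero
    field_simp; ring
  unfold hh
  linarith

theorem hh_upper (x : ℝ) : hh x ≤ 20 * π ^ 2 * x ^ 2 := by
  have h1 := Real.one_sub_sq_div_two_le_cos (x := 2 * π * x)
  have h2 := Real.one_sub_sq_div_two_le_cos (x := 6 * π * x)
  unfold hh
  nlinarith

theorem hh_third : hh (1 / 3) = 3 / 2 := by
  have h1 : cos (2 * π * (1 / 3)) = -(1 / 2) := by
    rw [show 2 * π * (1 / 3) = π - π / 3 by ring, Real.cos_pi_sub, Real.cos_pi_div_three]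
  have h2 : cos (6 * π * (1 / 3)) = 1 := by
    rw [show 6 * π * (1 / 3) = 2 * π by ring, Real.cos_two_pi]
  unfold hh
  rw [h1, h2]; norm_num

theorem hh_half : hh (1 / 2) = 4 := by
  have h1 : cos (2 * π * (1 / 2)) = -1 := by
    rw [show 2 * π * (1 / 2) = π by ring, Real.cos_pi]
  have h2 : cos (6 * π * (1 / 2)) = -1 := by
    rw [show 6 * π * (1 / 2) = π + 2 * π by ring, Real.cos_add_two_pi, Real.cos_pi]
  unfold hh
  rw [h1, h2]; norm_num

/-- ONE -/
theorem t_ONE : S_ONE := by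
  have hcont : ContinuousOn (fun x : ℝ => hh x / x ^ 2) (Set.Icc (1 / 6) (1 / 2)) := by
    apply ContinuousOn.div
    · unfold hh
      fun_prop
    · fun_prop
    · intro x hx
      have : 0 < x := lt_of_lt_of_le (by norm_num) hx.1
      positivity
  obtain ⟨x₀, hx₀, hmin⟩ := isCompact_Icc.exists_isMinOn
    (Set.nonempty_Icc.2 (by norm_num : (1 / 6 : ℝ) ≤ 1 / 2)) hcont
  have hmin' : ∀ x ∈ Set.Icc (1 / 6 : ℝ) (1 / 2), hh x₀ / x₀ ^ 2 ≤ hh x / x ^ 2 :=
    fun x hx => hmin hx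
  have h0 : 0 < x₀ := lt_of_lt_of_le (by norm_num) hx₀.1
  set μ := hh x₀ / x₀ ^ 2 with hμ
  have hμ1 : μ ≤ 27 / 2 := by
    have := hmin' (1 / 3) ⟨by norm_num, by norm_num⟩
    rw [hh_third] at this
    norm_num at this ⊢
    exact this
  have hμ2 : 8 ≤ μ := by
    rw [hμ, le_div_iff₀ (by positivity)]
    exact hh_lower x₀ (by rw [abs_of_pos h0]; exact hx₀.2)
  have hμ0 : 0 < μ := by linarith
  have hlt : x₀ < 1 / 2 := by
    rcases hx₀.2.lt_or_eq with h | h
    · exact h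
    · exfalso
      rw [h, hh_half] at hμ
      norm_num at hμ
      linarith
  have hhx : hh x₀ = μ * x₀ ^ 2 := by
    rw [hμ, div_mul_cancel₀]
    positivity
  refine ⟨1 / μ, x₀, by positivity, h0, hlt, ?_, ?_, ?_⟩
  · intro x hx
    change x ^ 2 ≤ 1 / μ * hh x
    rw [one_div, inv_mul_eq_div, le_div_iff₀ hμ0]
    rcases le_or_gt |x| (1 / 6) with h | h
    · have := hh_lower' x h
      nlinarith [sq_nonneg x]
    · have h1 := hmin' |x| ⟨h.le, hx⟩
      have h2 : (0:ℝ) < |x| ^ 2 := by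
        have : 0 < |x| := lt_trans (by norm_num) h
        positivity
      rw [le_div_iff₀ h2, hh_abs, sq_abs] at h1
      linarith
  · change 1 / μ * hh x₀ = x₀ ^ 2
    rw [hhx]
    field_simp
  · intro x
    change 1 / μ * hh x ≤ 25 * x ^ 2
    rw [one_div, inv_mul_eq_div, div_le_iff₀ hμ0]
    have h1 := hh_upper x
    have hpi : π ^ 2 < 10 := by
      have := Real.pi_lt_d2
      nlinarith [Real.pi_pos]
    have h2 : 20 * π ^ 2 * x ^ 2 ≤ 200 * x ^ 2 := by
      nlinarith [sq_nonneg x]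
    have h3 : 200 * x ^ 2 ≤ 25 * x ^ 2 * μ := by
      nlinarith [sq_nonneg x]
    linarith

end Pool.Agent.R441.TEONE
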