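import Pool.Agent.R441.SpSign

/-! `S_p` at the primitive tenth roots of unity, `p ≡ 21, 29 (mod 40)`. -/

set_option autoImplicit false
set_option linter.all false

namespace Pool.Agent.R441

open Finset ZMod Real

variable {p : ℕ} [hp : Fact p.Prime]

theorem Q_one_ne {s : ℤ} (hs : s = 1 ∨ s = -1) : Q p s 1 ≠ 0 := by
  unfold Q
  rw [Finset.prod_ne_zero_iff]
  intro r hr h
  apply ne_zero_of_mem hs hr
  apply injective_stdAddChar (N := p)
  rw [AddChar.map_zero_eq_one]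
  exact (sub_eq_zero.1 h).symm

/-- the algebraic relations for `p ≡ 1 mod 4`, `(2/p) = -1`, `(5/p) = 1` -/
theorem ten_alg (hp5 : 5 < p) (hm : quadraticChar (ZMod p) (-1) = 1)
    (h2 : quadraticChar (ZMod p) 2 = -1) (h5 : quadraticChar (ZMod p) 5 = 1)
    (heven : Even ((p - 1) / 2)) {η : ℂ} (hη : IsPrimitiveRoot η 5) :
    ∃ u : ℂ, u ^ 2 = η ^ (3 * ((p - 1) / 2)) ∧
      (η ^ 2 - 1) * (u * Q p 1 (-η)) = η ^ (2 * p) - 1 := by
  have hη5 : η ^ 5 = 1 := hη.pow_eq_one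
  have hη0 : η ≠ 0 := hη.ne_zero (by norm_num)
  have e1 := Q_sq (p := p) (by omega) (Or.inl rfl : (1 : ℤ) = 1 ∨ (1 : ℤ) = -1) η
  rw [h2, heven.neg_one_pow, one_mul, mul_one] at e1
  have e2 := Q_mul (p := p) (η ^ 2)
  have h5' : ((5 : ℕ) : ZMod p) ≠ 0 := cast_ne (by norm_num) hp5
  have e3 := Q_pow_odd (p := p) (by omega) (m := 5) (by norm_num) ⟨2, by norm_num⟩ h5' hη
    (Or.inl rfl : (1 : ℤ) = 1 ∨ (1 : ℤ) = -1) 1
  rw [Nat.cast_ofNat, h5, one_pow, mul_one] at e3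
  simp only [Finset.prod_range_succ, Finset.prod_range_zero, pow_zero, pow_one, one_mul, mul_one] at e3
  have e4 : Q p 1 η * Q p 1 (η ^ 2) * Q p 1 (η ^ 3) * Q p 1 (η ^ 4) = 1 := by
    have h := Q_one_ne (p := p) (Or.inl rfl : (1 : ℤ) = 1 ∨ (1 : ℤ) = -1)
    apply mul_left_cancel₀ h
    rw [mul_one]
    conv_rhs => rw [e3]
    ring
  have i1 := Q_inv (p := p) (by omega) (Or.inl rfl : (1 : ℤ) = 1 ∨ (1 : ℤ) = -1) hη0
  have i2 := Q_inv (p := p) (by omega) (Or.inl rfl : (1 : ℤ) = 1 ∨ (1 : ℤ) = -1) (pow_ne_zero 2 hη0)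
  rw [hm, heven.neg_one_pow, one_mul, mul_one] at i1 i2
  have v1 : η⁻¹ = η ^ 4 := by
    apply inv_eq_of_mul_eq_one_right
    rw [← hη5]; ring
  have v2 : (η ^ 2)⁻¹ = η ^ 3 := by
    apply inv_eq_of_mul_eq_one_right
    rw [← hη5]; ring
  rw [v1] at i1
  rw [v2] at i2
  refine ⟨Q p 1 η * Q p 1 (η ^ 2), ?_, ?_⟩
  · have e5 : η ^ (3 * ((p - 1) / 2)) = η ^ ((p - 1) / 2) * (η ^ 2) ^ ((p - 1) / 2) := by
      rw [← pow_mul, ← pow_add]; congr 1; ring
    rw [e5]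
    calc (Q p 1 η * Q p 1 (η ^ 2)) ^ 2 = (Q p 1 η * Q p 1 (η ^ 2)) * (Q p 1 η * Q p 1 (η ^ 2)) := by ring
      _ = (Q p 1 η * Q p 1 (η ^ 2)) * ((Q p 1 (η ^ 4) * η ^ ((p - 1) / 2)) *
            (Q p 1 (η ^ 3) * (η ^ 2) ^ ((p - 1) / 2))) := by rw [i1, i2]
      _ = (Q p 1 η * Q p 1 (η ^ 2) * Q p 1 (η ^ 3) * Q p 1 (η ^ 4)) *
            (η ^ ((p - 1) / 2) * (η ^ 2) ^ ((p - 1) / 2)) := by ring
      _ = _ := by rw [e4, one_mul]
  · rw [← pow_mul] at e2
    rw [← e2, e1]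
    ring

/-- `p ≡ 21 mod 40`: the value is a sign -/
theorem ten_21 (h40 : p % 40 = 21) {ζ : ℂ} (hζ : IsPrimitiveRoot (-ζ) 5)
    (hm : quadraticChar (ZMod p) (-1) = 1)
    (h2 : quadraticChar (ZMod p) 2 = -1) (h5 : quadraticChar (ZMod p) 5 = 1) :
    Q p 1 ζ = 1 ∨ Q p 1 ζ = -1 := by
  obtain ⟨u, hu, h⟩ := ten_alg (p := p) (by omega) hm h2 h5 (by rw [Nat.even_iff]; omega) hζ
  have hη5 := hζ.pow_eq_one
  rw [neg_neg] at h
  set η := -ζ with hη
  have hN : η ^ (3 * ((p - 1) / 2)) = 1 := by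
    rw [pow_eq_pow_mod _ hη5]
    have : 3 * ((p - 1) / 2) % 5 = 0 := by omega
    rw [this, pow_zero]
  have hP : η ^ (2 * p) = η ^ 2 := by
    rw [pow_eq_pow_mod _ hη5]
    have : 2 * p % 5 = 2 := by omega
    rw [this]
  have hne : η ^ 2 - 1 ≠ 0 := by
    intro h0
    have h1 := hζ.pow_ne_one_of_pos_of_lt (l := 2) (by norm_num) (by norm_num)
    exact h1 (sub_eq_zero.1 h0)
  rw [hN] at hu
  rw [hP] at h
  have h3 : u * Q p 1 ζ = 1 := by
    apply mul_left_cancel₀ hne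
    rw [h, mul_one]
  have hu' : u ^ 2 = 1 ^ 2 := by rw [hu, one_pow]
  rcases sq_eq_sq_iff_eq_or_eq_neg.1 hu' with h4 | h4
  · rw [h4, one_mul] at h3; left; exact h3
  · rw [h4] at h3; right; linear_combination -h3

/-- `p ≡ 29 mod 40`: the value is a sign times `ζ²` -/
theorem ten_29 (h40 : p % 40 = 29) {ζ : ℂ} (hζ : IsPrimitiveRoot (-ζ) 5)
    (hm : quadraticChar (ZMod p) (-1) = 1)
    (h2 : quadraticChar (ZMod p) 2 = -1) (h5 : quadraticChar (ZMod p) 5 = 1) :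
    Q p 1 ζ = ζ ^ 2 ∨ Q p 1 ζ = -ζ ^ 2 := by
  obtain ⟨u, hu, h⟩ := ten_alg (p := p) (by omega) hm h2 h5 (by rw [Nat.even_iff]; omega) hζ
  have hη5 := hζ.pow_eq_one
  rw [neg_neg] at h
  have hz2 : ζ ^ 2 = (-ζ) ^ 2 := by ring
  rw [hz2]
  set η := -ζ with hη
  have hN : η ^ (3 * ((p - 1) / 2)) = η ^ 2 := by
    rw [pow_eq_pow_mod _ hη5]
    have : 3 * ((p - 1) / 2) % 5 = 2 := by omega
    rw [this]
  have hP : η ^ (2 * p) = η ^ 3 := by
    rw [pow_eq_pow_mod _ hη5]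
    have : 2 * p % 5 = 3 := by omega
    rw [this]
  have hne : η ^ 2 - 1 ≠ 0 := by
    intro h0
    have h1 := hζ.pow_ne_one_of_pos_of_lt (l := 2) (by norm_num) (by norm_num)
    exact h1 (sub_eq_zero.1 h0)
  have hη0 : η ≠ 0 := hζ.ne_zero (by norm_num)
  rw [hN] at hu
  rw [hP] at h
  have key : ∀ v : ℂ, (η ^ 2 - 1) * (η * v) = η ^ 3 - 1 → v = -η ^ 2 := by
    intro v hv
    apply mul_left_cancel₀ (mul_ne_zero hne hη0)
    linear_combination hv + hη5
  rcases sq_eq_sq_iff_eq_or_eq_neg.1 hu with h4 | h4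
  · right
    apply key
    rw [← h, h4]
  · left
    have := key (-Q p 1 ζ) (by rw [← h, h4]; ring)
    linear_combination -this

/-- the number of nonresidues up to `M` -/
def nn (p M : ℕ) : ℕ := ((Finset.Icc 1 M).filter (fun k : ℕ => jacobiSym k p = -1)).card

theorem qc_eq (k : ℕ) : quadraticChar (ZMod p) (k : ZMod p) = jacobiSym k p := by
  rw [← jacobiSym.legendreSym.to_jacobiSym, legendreSym]
  simp

theorem nn_eq {M : ℕ} (j : ℕ) (hM : M = 4 * j + 3) (hp40 : p = 40 * j + 21 ∨ p = 40 * j + 29)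
    (h10 : quadraticChar (ZMod p) 10 = -1) : nn p M = cnt p (-1) 1 10 + 1 := by
  rw [cnt_nat (Or.inr rfl)]
  unfold nn
  have hj : (M : ZMod p) ≠ 0 := cast_ne (by omega) (by omega)
  have hlast : jacobiSym M p = -1 := by
    rw [← qc_eq]
    have h1 : quadraticChar (ZMod p) (10 : ZMod p) * quadraticChar (ZMod p) (M : ZMod p) = 1 := by
      rw [← map_mul]
      have hne : (10 : ZMod p) * (M : ZMod p) ≠ 0 := by
        refine mul_ne_zero ?_ hj
        intro h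
        rw [h, MulChar.map_zero] at h10
        norm_num at h10
      rw [quadraticChar_one_iff_isSquare hne]
      have e : (10 : ZMod p) * (M : ZMod p) = ((40 * j + 30 : ℕ) : ZMod p) := by
        rw [hM]; push_cast; ring
      rw [e]
      rcases hp40 with h | h
      · refine ⟨3, ?_⟩
        have e3 : 40 * j + 30 = p + 9 := by omega
        rw [e3, Nat.cast_add, CharP.cast_eq_zero]; norm_num
      · refine ⟨1, ?_⟩
        have e3 : 40 * j + 30 = p + 1 := by omega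
        rw [e3, Nat.cast_add, CharP.cast_eq_zero]; norm_num
    rw [h10] at h1
    linarith
  have hset : (Finset.Icc 1 M).filter (fun k : ℕ => jacobiSym k p = -1) =
      insert M ((range p).filter fun k : ℕ => 10 * k < 1 * p ∧
        quadraticChar (ZMod p) (k : ZMod p) = -1) := by
    ext k
    simp only [Finset.mem_filter, Finset.mem_Icc, Finset.mem_insert, Finset.mem_range, qc_eq]
    constructor
    · rintro ⟨⟨h1, h2⟩, h3⟩
      by_cases hk : k = M
      · left; exact hk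
      · right
        refine ⟨by omega, by omega, h3⟩
    · rintro (h | ⟨h1, h2, h3⟩)
      · rw [h]; exact ⟨⟨by omega, le_refl _⟩, hlast⟩
      · refine ⟨⟨?_, by omega⟩, h3⟩
        rcases Nat.eq_zero_or_pos k with h | h
        · subst h
          rw [← qc_eq, Nat.cast_zero, MulChar.map_zero] at h3
          norm_num at h3
        · exact h
  rw [hset, Finset.card_insert_of_notMem]
  intro h
  rw [Finset.mem_filter] at h
  omega

theorem parity {j : ℕ} (hp40 : p = 40 * j + 21 ∨ p = 40 * j + 29) :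
    (-1 : ℂ) ^ cnt p 1 1 10 = (-1) ^ cnt p (-1) 1 10 := by
  have h1 := cnt_add (p := p) 1 10 (by norm_num) (by norm_num)
  have h2 : ((range p).filter fun k : ℕ => 1 ≤ k ∧ 10 * k < 1 * p).card = 4 * j + 2 := by
    have : ((range p).filter fun k : ℕ => 1 ≤ k ∧ 10 * k < 1 * p) = Finset.Icc 1 (4 * j + 2) := by
      ext k
      simp only [Finset.mem_filter, Finset.mem_range, Finset.mem_Icc]
      omega
    rw [this, Nat.card_Icc]
    omega
  rw [h2] at h1
  have h3 : (-1 : ℂ) ^ cnt p 1 1 10 * (-1) ^ cnt p (-1) 1 10 = 1 := by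
    rw [← pow_add, h1]
    exact Even.neg_one_pow ⟨2 * j + 1, by ring⟩
  have h4 : ((-1 : ℂ) ^ cnt p (-1) 1 10) * (-1) ^ cnt p (-1) 1 10 = 1 := by
    rw [← pow_add]
    exact Even.neg_one_pow ⟨_, rfl⟩
  have h5 : ((-1 : ℂ) ^ cnt p (-1) 1 10) ≠ 0 := pow_ne_zero _ (by norm_num)
  exact mul_right_cancel₀ h5 (h3.trans h4.symm)

/-- the sign at `e(1/10)` -/
theorem ten_sign {j : ℕ} (hp40 : p = 40 * j + 21 ∨ p = 40 * j + 29)
    (hm : quadraticChar (ZMod p) (-1) = 1) (h10 : quadraticChar (ZMod p) 10 = -1) :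
    ∃ P : ℝ, 0 < P ∧ Q p 1 (ee (1 / 10)) = P * (-1) ^ nn p (4 * j + 3) *
      (if p = 40 * j + 21 then 1 else ee (1 / 10) ^ 2) := by
  have hco : Nat.Coprime 10 p := by
    rw [Nat.coprime_comm, Nat.Prime.coprime_iff_not_dvd hp.out]
    intro h
    have := Nat.le_of_dvd (by norm_num) h
    omega
  obtain ⟨P, hP, h⟩ := Q_sign (p := p) (s := 1) (by omega) (Or.inl rfl) (a := 1) (m := 10)
    (by norm_num) (by norm_num) hco (by norm_num) (by omega)
  refine ⟨P, hP, ?_⟩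
  have hcle : cnt p 1 1 10 ≤ (p - 1) / 2 := by
    rw [← RR_card (p := p) (by omega) (Or.inl rfl : (1 : ℤ) = 1 ∨ (1 : ℤ) = -1)]
    exact Finset.card_filter_le _ _
  have hsg : (-1 : ℂ) ^ ((p - 1) / 2 - cnt p 1 1 10) = (-1) ^ cnt p 1 1 10 := by
    have h5 : ((-1 : ℂ) ^ cnt p 1 1 10) ≠ 0 := pow_ne_zero _ (by norm_num)
    apply mul_right_cancel₀ h5
    rw [← pow_add, ← pow_add, Nat.sub_add_cancel hcle]
    have : Even ((p - 1) / 2) := by rw [Nat.even_iff]; omega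
    rw [this.neg_one_pow, Even.neg_one_pow ⟨_, rfl⟩]
  have hn := nn_eq (p := p) j rfl hp40 h10
  have hpar := parity hp40
  have hn' : (-1 : ℂ) ^ nn p (4 * j + 3) = -(-1) ^ cnt p 1 1 10 := by
    rw [hn, pow_succ, hpar]; ring
  have hval := sum_val (p := p) (by omega) hm (Or.inl rfl : (1 : ℤ) = 1 ∨ (1 : ℤ) = -1)
  have hp0 : (p : ℂ) ≠ 0 := by exact_mod_cast hp.out.ne_zero
  have hval' : ((∑ r ∈ RR p 1, r.val : ℕ) : ℂ) / p = ((p - 1) / 2 : ℕ) / 2 := by
    have : (2 : ℂ) * ((∑ r ∈ RR p 1, r.val : ℕ) : ℂ) = ((p - 1) / 2 : ℕ) * p := by exact_mod_cast hval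
    field_simp
    linear_combination this
  have e10 : ((1 : ℕ) : ℝ) / (10 : ℕ) = 1 / 10 := by norm_num
  rw [e10, hsg, hval'] at h
  rw [h, hn']
  rcases hp40 with h40 | h40
  · rw [if_pos h40]
    have hN : (p - 1) / 2 = 20 * j + 10 := by omega
    rw [hN]
    have i1 : Complex.I ^ (20 * j + 10) = -1 := by
      have : Complex.I ^ (20 * j + 10) = (Complex.I ^ 4) ^ (5 * j + 2) * Complex.I ^ 2 := by ring
      rw [this, Complex.I_pow_four, one_pow, Complex.I_sq]; ring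
    have i2 : Complex.exp (π * Complex.I * (((20 * j + 10 : ℕ) : ℂ) * (((1 : ℕ) : ℂ) / (10 : ℕ)) +
        ((20 * j + 10 : ℕ) : ℂ) / 2)) = 1 := by
      rw [Complex.exp_eq_one_iff]
      exact ⟨6 * j + 3, by push_cast; ring⟩
    rw [i1, i2]; ring
  · rw [if_neg (by omega)]
    have hN : (p - 1) / 2 = 20 * j + 14 := by omega
    rw [hN]
    have i1 : Complex.I ^ (20 * j + 14) = -1 := by
      have : Complex.I ^ (20 * j + 14) = (Complex.I ^ 4) ^ (5 * j + 3) * Complex.I ^ 2 := by ring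
      rw [this, Complex.I_pow_four, one_pow, Complex.I_sq]; ring
    have i2 : Complex.exp (π * Complex.I * (((20 * j + 14 : ℕ) : ℂ) * (((1 : ℕ) : ℂ) / (10 : ℕ)) +
        ((20 * j + 14 : ℕ) : ℂ) / 2)) = ee (1 / 10) ^ 2 := by
      unfold ee
      rw [← Complex.exp_nat_mul, Complex.exp_eq_exp_iff_exists_int]
      exact ⟨6 * j + 4, by push_cast; ring⟩
    rw [i1, i2]; ring

theorem ee_prim {m : ℕ} (hm : m ≠ 0) : IsPrimitiveRoot (ee (1 / m)) m := by
  have h := Complex.isPrimitiveRoot_exp m hm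
  unfold ee
  convert h using 2
  push_cast
  ring

theorem ee_pow (a : ℝ) (n : ℕ) : ee a ^ n = ee (n * a) := by
  unfold ee
  rw [← Complex.exp_nat_mul]
  congr 1
  push_cast
  ring

/-- transfer of the value of `S_p` from one root of unity to its conjugates over `ℚ(e(1/p))` -/
theorem S_transfer (hp2 : p ≠ 2) {m : ℕ} (hm : 0 < m) (hco : Nat.Coprime m p) (c : ℤ) (t : ℕ)
    (h : S p (ee (1 / m)) = c * ee (1 / m) ^ t) {ζ : ℂ} (hζ : IsPrimitiveRoot ζ m) :
    S p ζ = c * ζ ^ t := by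
  have hmp : 0 < m * p := Nat.mul_pos hm hp.out.pos
  obtain ⟨a, ha, hac, rfl⟩ := (haveI : NeZero m := ⟨hm.ne'⟩; (IsPrimitiveRoot.isPrimitiveRoot_iff (ee_prim hm.ne')).1 hζ)
  obtain ⟨b, hb1, hb2⟩ := Nat.chineseRemainder hco a 1
  have hz := ee_prim (m := m * p) hmp.ne'
  have hbm : Nat.Coprime b m := by
    have := hb1.gcd_eq
    rw [Nat.Coprime, this]
    exact hac
  have hbp : Nat.Coprime b p := by
    have := hb2.gcd_eq
    rw [Nat.Coprime, this]
    exact Nat.gcd_one_left p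
  have hzb : IsPrimitiveRoot (ee (1 / ((m * p : ℕ) : ℝ)) ^ b) (m * p) :=
    hz.pow_of_coprime b (hbm.mul_right hbp)
  have hpR : (p : ℝ) ≠ 0 := by exact_mod_cast hp.out.ne_zero
  have hmR : (m : ℝ) ≠ 0 := by exact_mod_cast hm.ne'
  have z1 : ee (1 / ((m * p : ℕ) : ℝ)) ^ p = ee (1 / m) := by
    rw [ee_pow]; congr 1; push_cast; field_simp
  have z2 : ∀ k : ℕ, ee (1 / ((m * p : ℕ) : ℝ)) ^ (m * k ^ 2) =
      Complex.exp (2 * Real.pi * Complex.I * (k : ℂ) ^ 2 / p) := by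
    intro k
    rw [ee_pow]
    unfold ee
    congr 1
    have : (m : ℂ) ≠ 0 := by exact_mod_cast hm.ne'
    have : (p : ℂ) ≠ 0 := by exact_mod_cast hp.out.ne_zero
    push_cast
    field_simp
  set z := ee (1 / ((m * p : ℕ) : ℝ)) with hzdef
  -- the polynomial
  let f : Polynomial ℤ := (∏ k ∈ Finset.Icc 1 ((p - 1) / 2), (Polynomial.X ^ p - Polynomial.X ^ (m * k ^ 2)))
    - ((c : ℤ) : Polynomial ℤ) * Polynomial.X ^ (p * t)
  have hf : ∀ y : ℂ, Polynomial.aeval y f =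
      (∏ k ∈ Finset.Icc 1 ((p - 1) / 2), (y ^ p - y ^ (m * k ^ 2))) - (c : ℂ) * y ^ (p * t) := by
    intro y
    simp only [f]
    rw [map_sub, map_mul, map_prod, map_intCast]
    simp only [map_pow, map_sub, Polynomial.aeval_X]
  have hf0 : Polynomial.aeval z f = 0 := by
    rw [hf]
    have : ∏ k ∈ Finset.Icc 1 ((p - 1) / 2), (z ^ p - z ^ (m * k ^ 2)) = S p (ee (1 / m)) := by
      unfold S
      refine Finset.prod_congr rfl fun k _ => ?_
      rw [z1, z2]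
    rw [this, h, pow_mul, z1, sub_self]
  have hfb := transfer hmp hz hzb f hf0
  rw [hf] at hfb
  have w1 : (z ^ b) ^ p = ee (1 / m) ^ a := by
    rw [← pow_mul, mul_comm, pow_mul, z1]
    have e1 := (ee_prim hm.ne').pow_eq_one
    rw [pow_eq_pow_mod b e1, pow_eq_pow_mod a e1]
    congr 1
  have w2 : ∀ k : ℕ, (z ^ b) ^ (m * k ^ 2) = Complex.exp (2 * Real.pi * Complex.I * (k : ℂ) ^ 2 / p) := by
    intro k
    rw [← z2 k]
    have e1 : (z ^ b) ^ (m * k ^ 2) = (z ^ (m * k ^ 2)) ^ b := by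
      rw [← pow_mul, ← pow_mul]; congr 1; ring
    have e2 : (z ^ (m * k ^ 2)) ^ p = 1 := by
      rw [← pow_mul]
      have : m * k ^ 2 * p = (m * p) * k ^ 2 := by ring
      rw [this, pow_mul, hz.pow_eq_one, one_pow]
    rw [e1, pow_eq_pow_mod b e2]
    have : b % p = 1 := by
      have := hb2
      unfold Nat.ModEq at this
      rw [this]
      exact Nat.mod_eq_of_lt hp.out.one_lt
    rw [this, pow_one]
  have w3 : (z ^ b) ^ (p * t) = (ee (1 / m) ^ a) ^ t := by rw [pow_mul, w1]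
  rw [w3] at hfb
  have w4 : ∏ k ∈ Finset.Icc 1 ((p - 1) / 2), ((z ^ b) ^ p - (z ^ b) ^ (m * k ^ 2)) =
      S p (ee (1 / m) ^ a) := by
    unfold S
    refine Finset.prod_congr rfl fun k _ => ?_
    rw [w1, w2]
  rw [w4] at hfb
  exact sub_eq_zero.1 hfb

end Pool.Agent.R441
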