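import Pool.Agent.R441.Sp

/-! `S_p` at the primitive twelfth roots of unity for `p ≡ 19 (mod 24)`: the algebra. -/

set_option autoImplicit false
set_option linter.all false

namespace Pool.Agent.R441

open Finset ZMod

variable {p : ℕ} [hp : Fact p.Prime]

theorem tw_chars (h24 : p % 24 = 19) : quadraticChar (ZMod p) (-1) = -1 ∧
    quadraticChar (ZMod p) 2 = -1 ∧ quadraticChar (ZMod p) 3 = -1 := by
  have hm : quadraticChar (ZMod p) (-1) = -1 := by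
    rw [quadraticChar_neg_one_iff_not_isSquare, ZMod.exists_sq_eq_neg_one_iff]
    omega
  have h2 : quadraticChar (ZMod p) 2 = -1 := by
    rw [quadraticChar_neg_one_iff_not_isSquare, ZMod.exists_sq_eq_two_iff (by omega)]
    omega
  refine ⟨hm, h2, ?_⟩
  have h3p : Fact (Nat.Prime 3) := ⟨by norm_num⟩
  have := ZMod.exists_sq_eq_prime_iff_of_mod_four_eq_three (p := p) (q := 3) (by omega) (by norm_num)
    (by omega)
  rw [Nat.cast_ofNat] at this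
  rw [quadraticChar_neg_one_iff_not_isSquare, this, not_not]
  have h1 : (p : ZMod 3) = ((p % 3 : ℕ) : ZMod 3) := by rw [ZMod.natCast_mod]
  rw [h1]
  have : p % 3 = 1 := by omega
  rw [this]
  exact ⟨1, by norm_num⟩

theorem Q_ne {x : ℂ} (hx : x ^ p ≠ 1) {s : ℤ} (hs : s = 1 ∨ s = -1) : Q p s x ≠ 0 := by
  intro h0
  have h1 := Q_mul (p := p) x
  rcases hs with rfl | rfl
  · rw [h0, zero_mul, mul_zero] at h1
    exact hx (sub_eq_zero.1 h1.symm)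
  · rw [h0, mul_zero, mul_zero] at h1
    exact hx (sub_eq_zero.1 h1.symm)

theorem tw_alg (h24 : p % 24 = 19) {ζ : ℂ} (hζ : IsPrimitiveRoot ζ 12) :
    (ζ ^ 11 - 1) * Q p 1 ζ ^ 2 = -(ζ ^ 5 - 1) ∧ Q p 1 ζ * Q p 1 (ζ ^ 5) = ζ ^ 9 ∧
    Q p 1 ζ * Q p 1 (-ζ) = -1 ∧ (ζ - 1) * (Q p 1 ζ * Q p 1 ζ⁻¹) * ζ ^ 9 = ζ + 1 := by
  obtain ⟨hm, h2, h3⟩ := tw_chars (p := p) h24
  have z12 : ζ ^ 12 = 1 := hζ.pow_eq_one
  have z6 : ζ ^ 6 = -1 := by
    have h1 : ζ ^ 6 ≠ 1 := hζ.pow_ne_one_of_pos_of_lt (by norm_num) (by norm_num)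
    have h2 : (ζ ^ 6) ^ 2 = 1 ^ 2 := by rw [← pow_mul, z12, one_pow]
    rcases sq_eq_sq_iff_eq_or_eq_neg.1 h2 with h | h
    · exact absurd h h1
    · exact h
  have hζ0 : ζ ≠ 0 := hζ.ne_zero (by norm_num)
  have hpw : ∀ m k : ℕ, m % 12 = k % 12 → ζ ^ m = ζ ^ k := by
    intro m k h
    rw [pow_eq_pow_mod m z12, pow_eq_pow_mod k z12, h]
  have hinv : ∀ m k : ℕ, (m + k) % 12 = 0 → (ζ ^ m)⁻¹ = ζ ^ k := by
    intro m k h
    apply inv_eq_of_mul_eq_one_right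
    rw [← pow_add, hpw (m + k) 0 (by omega), pow_zero]
  have hne : ∀ m : ℕ, m % 12 ≠ 0 → (ζ ^ m) ^ p ≠ 1 := by
    intro m h h1
    rw [← pow_mul] at h1
    have h4 := (hζ.pow_eq_one_iff_dvd _).1 h1
    have hco : Nat.Coprime 12 p := by
      have : Nat.Coprime 12 (p % 12) := by
        have : p % 12 = 7 := by omega
        rw [this]; norm_num
      rwa [Nat.Coprime, Nat.gcd_comm, ← Nat.gcd_rec, Nat.gcd_comm, Nat.gcd_comm] at this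
    have h5 := hco.dvd_of_dvd_mul_right h4
    omega
  have hp2 : p ≠ 2 := by omega
  have hp3 : 3 < p := by
    have := hp.out.two_le
    omega
  have hodd : Odd ((p - 1) / 2) := by rw [Nat.odd_iff]; omega
  have s1 : (1 : ℤ) = 1 ∨ (1 : ℤ) = -1 := Or.inl rfl
  have s2 : (-1 : ℤ) = 1 ∨ (-1 : ℤ) = -1 := Or.inr rfl
  -- (a)
  have h3' : ((3 : ℕ) : ZMod p) ≠ 0 := cast_ne (by norm_num) (by omega)
  have hη : IsPrimitiveRoot (ζ ^ 4) 3 := hζ.pow (by norm_num) (by norm_num)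
  have a := Q_pow_odd (p := p) hp2 (m := 3) (by norm_num) ⟨1, by norm_num⟩ h3' hη s1 ζ
  rw [Nat.cast_ofNat, h3] at a
  simp only [Finset.prod_range_succ, Finset.prod_range_zero, pow_zero, pow_one, one_mul, mul_one] at a
  have a1 : ζ ^ 4 * ζ = ζ ^ 5 := by ring
  have a2 : (ζ ^ 4) ^ 2 * ζ = ζ ^ 9 := by ring
  rw [a1, a2] at a
  -- (b)
  have b := Q_inv (p := p) hp3 s1 (pow_ne_zero 3 hζ0)
  rw [hm, hodd.neg_one_pow, mul_one, hinv 3 9 (by norm_num), ← pow_mul,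
    hpw (3 * ((p - 1) / 2)) 3 (by omega)] at b
  -- (f)
  have f1 := Q_sq (p := p) hp2 s2 (ζ ^ 8)
  rw [h2, hodd.neg_one_pow, ← pow_mul, hpw (8 * 2) 4 (by norm_num)] at f1
  have f2 : -ζ ^ 8 = ζ ^ 2 := by
    linear_combination (-ζ ^ 2) * z6
  rw [f2] at f1
  have f3 := Q_inv (p := p) hp3 s2 (pow_ne_zero 4 hζ0)
  rw [hm, hodd.neg_one_pow, hinv 4 8 (by norm_num), ← pow_mul,
    hpw (4 * ((p - 1) / 2)) 0 (by omega), pow_zero, mul_one] at f3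
  have e1 : (-1 : ℤ) * (-1) = 1 := by norm_num
  rw [e1] at f1 f3
  have B8 : Q p (-1) (ζ ^ 8) ≠ 0 := Q_ne (hne 8 (by norm_num)) s2
  have B2 : Q p (-1) (ζ ^ 2) = 1 := by
    apply mul_left_cancel₀ B8
    rw [mul_one]
    linear_combination f1 - f3
  -- (c)
  have c := Q_sq (p := p) hp2 s1 ζ
  rw [h2, hodd.neg_one_pow, mul_one, B2] at c
  -- (d)
  have d := Q_inv (p := p) hp3 s1 (pow_ne_zero 5 hζ0)
  rw [hm, hodd.neg_one_pow, mul_one, hinv 5 7 (by norm_num), ← pow_mul,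
    hpw (5 * ((p - 1) / 2)) 9 (by omega)] at d
  have d1 : ζ ^ 7 = -ζ := by linear_combination ζ * z6
  rw [d1] at d
  -- (e)
  have e := Q_mul (p := p) (ζ ^ 5)
  rw [← pow_mul, hpw (5 * p) 11 (by omega)] at e
  -- (g)
  have g := Q_inv (p := p) hp3 s1 hζ0
  rw [hm, hodd.neg_one_pow, mul_one, hpw ((p - 1) / 2) 9 (by omega)] at g
  have g1 := Q_mul (p := p) ζ
  rw [hpw p 7 (by omega), d1] at g1
  have B3 : Q p (-1) (ζ ^ 3) ≠ 0 := Q_ne (hne 3 (by norm_num)) s2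
  have hA9 : Q p 1 (ζ ^ 9) = Q p (-1) (ζ ^ 3) * ζ ^ 3 := by
    have h1 : Q p 1 (ζ ^ 9) * ζ ^ 3 * ζ ^ 9 = -1 * Q p (-1) (ζ ^ 3) * ζ ^ 9 := by rw [b]
    have h2 : ζ ^ 3 * ζ ^ 9 = 1 := by rw [← pow_add]; exact z12
    have h3 : ζ ^ 9 = -ζ ^ 3 := by linear_combination ζ ^ 3 * z6
    rw [mul_assoc, h2, mul_one] at h1
    rw [h1, h3]; ring
  have hA15 : Q p 1 ζ * Q p 1 (ζ ^ 5) = ζ ^ 9 := by
    rw [hA9] at a
    have h1 : Q p 1 ζ * Q p 1 (ζ ^ 5) * ζ ^ 3 = 1 := by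
      apply mul_left_cancel₀ B3
      rw [mul_one]
      linear_combination -a
    have h2 : ζ ^ 3 * ζ ^ 9 = 1 := by rw [← pow_add]; exact z12
    linear_combination ζ ^ 9 * h1 - Q p 1 ζ * Q p 1 (ζ ^ 5) * h2
  have hA17 : Q p 1 ζ * Q p 1 (-ζ) = -1 := by linear_combination c
  refine ⟨?_, hA15, hA17, ?_⟩
  · have h9 : ζ ^ 9 = -ζ ^ 3 := by linear_combination ζ ^ 3 * z6
    have hB5 : Q p (-1) (ζ ^ 5) = Q p 1 (-ζ) * ζ ^ 3 := by
      rw [h9] at d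
      linear_combination d
    rw [hB5] at e
    have : (ζ ^ 5 - 1) * ((Q p 1 ζ * Q p 1 (ζ ^ 5)) * (Q p 1 ζ * Q p 1 (-ζ)) * ζ ^ 3) =
        (ζ ^ 11 - 1) * Q p 1 ζ ^ 2 := by rw [← e]; ring
    rw [← this, hA15, hA17, h9]
    linear_combination (ζ ^ 5 - 1) * z6
  · linear_combination (ζ - 1) * Q p 1 ζ * g - g1

end Pool.Agent.R441
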