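import Pool.Agent.R441.Q4.T
import Pool.Agent.R441.Tw1

/-! `S_p` at the primitive twelfth roots of unity for `p ≡ 19 (mod 24)`: the sign. -/

set_option autoImplicit false
set_option linter.all false

namespace Pool.Agent.R441.Tw

open Polynomial Pool.Agent.R441.Q4

/-- transfer to a root of `Φ_N` -/
theorem transfer' {N : ℕ} (hN : 0 < N) {ξ : ℂ} (hξ : IsPrimitiveRoot ξ N) {R : Type*} [CommRing R]
    {g : R} (hg : aeval g (cyclotomic N ℤ) = 0) (f : ℤ[X]) (hf : aeval ξ f = 0) : aeval g f = 0 := by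
  have h1 : minpoly ℤ ξ ∣ f := minpoly.isIntegrallyClosed_dvd (hξ.isIntegral hN) hf
  rw [← cyclotomic_eq_minpoly hξ hN] at h1
  obtain ⟨q, rfl⟩ := h1
  rw [map_mul, hg, zero_mul]

theorem cyc_char {p : ℕ} [hp : Fact p.Prime] (h : ¬ p ∣ 12) {F : Type*} [Field F] [CharP F p] {g : F}
    (hg : IsPrimitiveRoot g 12) : aeval g (cyclotomic (12 * p) ℤ) = 0 := by
  rw [aeval_def, ← eval_map, algebraMap_int_eq, map_cyclotomic_int,
    cyclotomic_mul_prime_eq_pow_of_not_dvd F h, eval_pow]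
  have h1 : eval g (cyclotomic 12 F) = 0 := hg.isRoot_cyclotomic (by norm_num)
  rw [h1, zero_pow]
  have := hp.out.two_le
  omega

/-- the polynomial -/
noncomputable def PP (p n : ℕ) (s : ℤ) : ℤ[X] :=
  2 * ∏ k ∈ Finset.Icc 1 n, (X ^ p - X ^ (12 * k ^ 2)) -
    ((s : ℤ) : ℤ[X]) * ((1 + X ^ (3 * p)) * (1 + 2 * X ^ p - X ^ (3 * p)))

theorem PP_aeval {R : Type} [CommRing R] (g : R) (p n : ℕ) (s : ℤ) :
    aeval g (PP p n s) = 2 * ∏ k ∈ Finset.Icc 1 n, (g ^ p - g ^ (12 * k ^ 2)) -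
    ((s : ℤ) : R) * ((1 + g ^ (3 * p)) * (1 + 2 * g ^ p - g ^ (3 * p))) := by
  unfold PP
  simp only [map_sub, map_mul, map_prod, map_add, map_pow, aeval_X, map_one, map_intCast, map_ofNat]

/-- the relation in characteristic `p` -/
theorem rel_char {p : ℕ} [hp : Fact p.Prime] (h24 : p % 24 = 19) {ε : ℤ} {ζ : ℂ}
    (hζ : ζ = Complex.exp (2 * Real.pi * Complex.I / 12))
    (h : 2 * S p ζ = ε * ((1 + ζ ^ 3) * (1 + 2 * ζ - ζ ^ 3)))
    {F : Type} [Field F] [CharP F p] {g : F} (hg : IsPrimitiveRoot g 12) :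
    2 * (g - 1) ^ ((p - 1) / 2) = (ε : F) * ((1 + g ^ 3) * (1 + 2 * g - g ^ 3)) := by
  have hp0 : (p : ℂ) ≠ 0 := by exact_mod_cast hp.out.ne_zero
  have hN : 12 * p ≠ 0 := mul_ne_zero (by norm_num) hp.out.ne_zero
  have hξ := Complex.isPrimitiveRoot_exp (12 * p) hN
  obtain ⟨ξ, hξe⟩ : ∃ ξ, ξ = Complex.exp (2 * Real.pi * Complex.I / ((12 * p : ℕ) : ℂ)) := ⟨_, rfl⟩
  rw [← hξe] at hξ
  have e1 : ξ ^ p = ζ := by
    rw [hξe, hζ, ← Complex.exp_nat_mul]
    congr 1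
    push_cast
    field_simp
  have e2 : ∀ k : ℕ, Complex.exp (2 * Real.pi * Complex.I * (k : ℂ) ^ 2 / p) = ξ ^ (12 * k ^ 2) := by
    intro k
    rw [hξe, ← Complex.exp_nat_mul]
    congr 1
    push_cast
    field_simp
  have h1 : aeval ξ (PP p ((p - 1) / 2) ε) = 0 := by
    rw [PP_aeval, pow_mul', e1]
    rw [sub_eq_zero, ← h]
    unfold S
    congr 1
    refine Finset.prod_congr rfl fun k _ => ?_
    rw [e2]
  have hnd : ¬ p ∣ 12 := by
    intro h
    have := Nat.le_of_dvd (by norm_num) h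
    omega
  have hg7 : IsPrimitiveRoot (g ^ 7) 12 := hg.pow_of_coprime 7 (by norm_num)
  have h2 := transfer' (Nat.pos_of_ne_zero hN) hξ (cyc_char hnd hg7) _ h1
  rw [PP_aeval] at h2
  have g12 := hg.pow_eq_one
  have e3 : (g ^ 7) ^ p = g := by
    rw [← pow_mul, pow_eq_pow_mod _ g12]
    have : 7 * p % 12 = 1 := by omega
    rw [this, pow_one]
  have e4 : ∀ k : ℕ, (g ^ 7) ^ (12 * k ^ 2) = 1 := by
    intro k
    rw [pow_mul, hg7.pow_eq_one, one_pow]
  rw [pow_mul' (g ^ 7) 3 p, e3] at h2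
  have e5 : ∏ k ∈ Finset.Icc 1 ((p - 1) / 2), (g - (g ^ 7) ^ (12 * k ^ 2)) =
      (g - 1) ^ ((p - 1) / 2) := by
    rw [Finset.prod_congr rfl (fun k _ => by rw [e4 k])]
    rw [Finset.prod_const, Nat.card_Icc]
    congr 1
  rw [e5] at h2
  exact sub_eq_zero.1 h2

/-! ### the quartic symbol -/

lemma cop_yx {p : ℕ} (hp : p.Prime) {x y : ℤ} (hxy : (4 * x) ^ 2 + 3 * y ^ 2 = p) (h2 : p ≠ 2)
    (h3 : p ≠ 3) : IsCoprime y (4 * x) := by
  rw [Int.isCoprime_iff_gcd_eq_one]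
  by_contra hne
  obtain ⟨q, hq, hqd⟩ := Nat.exists_prime_and_dvd hne
  have h1 : (q : ℤ) ∣ y := (Int.natCast_dvd_natCast.2 hqd).trans (Int.gcd_dvd_left _ _)
  have h2 : (q : ℤ) ∣ 4 * x := (Int.natCast_dvd_natCast.2 hqd).trans (Int.gcd_dvd_right _ _)
  have h3 : (q : ℤ) ^ 2 ∣ (p : ℤ) := by
    rw [← hxy]
    exact dvd_add (pow_dvd_pow_of_dvd h2 2) ((pow_dvd_pow_of_dvd h1 2).mul_left _)
  have h4 : q ^ 2 ∣ p := by exact_mod_cast h3
  have h5 := (Nat.dvd_prime hp).1 h4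
  have h6 := hq.one_lt
  rcases h5 with h5 | h5
  · nlinarith
  · have h7 : q ∣ p := ⟨q, by rw [← h5, sq]⟩
    have h8 := (Nat.prime_dvd_prime_iff_eq hq hp).1 h7
    rw [h8] at h5
    have := hp.one_lt
    nlinarith

lemma L_kappa {p : ℕ} (hp : p.Prime) (h24 : p % 24 = 19) {x y : ℤ}
    (hxy : (4 * x) ^ 2 + 3 * y ^ 2 = p) : L (p : ZI) ⟨-y, 4 * x⟩ = 2 * (x : ZMod 4) := by
  have hy2 : y % 2 = 1 := by
    by_contra hne
    obtain ⟨k, hk⟩ : ∃ k, y = 2 * k := ⟨y / 2, by omega⟩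
    have : (4 * x) ^ 2 + 3 * y ^ 2 = 2 * (8 * x ^ 2 + 6 * k ^ 2) := by rw [hk]; ring
    omega
  have hβ : Ev (⟨-y, 4 * x⟩ : ZI) := ev_of (by show (-y) % 2 = 1; omega) (by show (4 * x) % 2 = 0; omega)
  have c0 := cop_yx hp hxy (by omega) (by omega)
  have ody : Od (y : ZI) := od_int.2 hy2
  have i0 : IsCoprime (y : ZI) ((4 * x : ℤ) : ZI) := int_cop c0
  have eβ : (⟨-y, 4 * x⟩ : ZI) = ((-y : ℤ) : ZI) + ((4 * x : ℤ) : ZI) * im1 := eq_re_im _
  have i1 : IsCoprime (y : ZI) (⟨-y, 4 * x⟩ : ZI) := by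
    refine cop_congr (a := ((4 * x : ℤ) : ZI) * im1) ⟨1, ?_⟩ (i0.mul_right (cop_unit im1_norm _))
    rw [eβ]; push_cast; ring
  have hnorm : (⟨-y, 4 * x⟩ : ZI).norm = y ^ 2 + (4 * x) ^ 2 := by
    rw [norm_def']
    show (-y) ^ 2 + (4 * x) ^ 2 = _
    ring
  -- coprimality of `p` and `β`
  have hpβ : IsCoprime ((p : ℤ) : ZI) (⟨-y, 4 * x⟩ : ZI) := by
    have h1 : IsCoprime (p : ℤ) (y ^ 2 + (4 * x) ^ 2) := by
      rw [(Nat.prime_iff_prime_int.1 hp).coprime_iff_not_dvd]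
      intro hd
      have h2 : (p : ℤ) ∣ 2 * y ^ 2 := by
        have : 2 * y ^ 2 = (p : ℤ) - (y ^ 2 + (4 * x) ^ 2) := by rw [← hxy]; ring
        rw [this]
        exact dvd_sub dvd_rfl hd
      rcases (Nat.prime_iff_prime_int.1 hp).dvd_or_dvd h2 with h3 | h3
      · have h4 : p ∣ 2 := by exact_mod_cast h3
        have := Nat.le_of_dvd (by norm_num) h4
        omega
      · have h4 := (Nat.prime_iff_prime_int.1 hp).dvd_of_dvd_pow h3
        have h5 := cop_py hp (D := 3) (x := 4 * x) (y := y) (by rw [← hxy]) (by norm_num)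
        exact ((Nat.prime_iff_prime_int.1 hp).coprime_iff_not_dvd.1 h5) h4
    have h2 := int_cop h1
    rw [← hnorm, Zsqrtd.norm_eq_mul_conj] at h2
    exact h2.of_mul_right_left
  have hp2 : (p : ℤ) % 2 = 1 := by omega
  have k1 := rec_rat hp2 hβ hpβ
  have e4 : s4 (p : ℤ) = -1 := by unfold s4; rw [if_neg (by omega)]
  rw [e4] at k1
  have k2 : L (p : ZI) (⟨-y, 4 * x⟩ : ZI) = L (⟨-y, 4 * x⟩ : ZI) (im1 * (oi ^ 2 * (y : ZI) ^ 2)) := by
    have h1 : L (p : ZI) (⟨-y, 4 * x⟩ : ZI) = L (⟨-y, 4 * x⟩ : ZI) (((-1 * (p : ℤ) : ℤ)) : ZI) := by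
      unfold L
      rw [k1, Int.cast_natCast]
    rw [h1]
    apply L_per hβ.od
    refine ⟨-star (⟨-y, 4 * x⟩ : ZI), ?_⟩
    rw [mul_neg, ← Zsqrtd.norm_eq_mul_conj, hnorm, ← hxy]
    have h2 : im1 * (oi ^ 2 * (y : ZI) ^ 2) = -2 * (y : ZI) ^ 2 := by
      have : im1 * oi ^ 2 = -2 := by decide
      linear_combination (y : ZI) ^ 2 * this
    rw [h2]
    push_cast
    ring
  rw [k2, L_mul hβ.od (cop_unit im1_norm _) ((cop_oi hβ.od).pow_right.mul_right i1.symm.pow_right),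
    L_mul hβ.od (cop_oi hβ.od).pow_right i1.symm.pow_right, L_pow hβ.od (cop_oi hβ.od),
    L_pow hβ.od i1.symm, L_im hβ.od]
  have k3 : 2 * L (⟨-y, 4 * x⟩ : ZI) (y : ZI) = 0 := by
    rw [L_rec_int hy2 hβ i1, mul_add, two_ls, add_zero]
    have h1 := sq_norm hy2 (⟨-y, 4 * x⟩ : ZI)
    have h3 : jacobiSym (⟨-y, 4 * x⟩ : ZI).norm y.natAbs = 1 := by
      rw [hnorm]
      have e1 : (y ^ 2 + (4 * x) ^ 2) % (y.natAbs : ℤ) = (4 * x) ^ 2 % (y.natAbs : ℤ) := by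
        exact Int.ModEq.symm ((Int.modEq_iff_dvd).2 (by
          rw [add_sub_cancel_right]
          exact (Int.natAbs_dvd.2 dvd_rfl).trans (dvd_pow_self _ two_ne_zero)))
      rw [jacobiSym.mod_left, e1, ← jacobiSym.mod_left]
      apply jacobiSym.sq_one'
      have h5 : Int.gcd (4 * x) (y.natAbs : ℤ) = Int.gcd (4 * x) y := by
        show Nat.gcd (4 * x).natAbs ((y.natAbs : ℤ)).natAbs = Nat.gcd (4 * x).natAbs y.natAbs
        rw [Int.natAbs_natCast]
      rw [h5]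
      exact Int.isCoprime_iff_gcd_eq_one.1 c0.symm
    rw [h3, Int.cast_one] at h1
    have h4 := congrArg lg h1
    rw [lg_pow (Q_norm ody i1), lg_one] at h4
    exact_mod_cast h4
  have k4 := two_oi (a := -y) (b := 4 * x) (by omega) (by omega)
  obtain ⟨m, hm⟩ : ∃ m, y = 2 * m + 1 := ⟨y / 2, by omega⟩
  obtain ⟨t, ht⟩ : ∃ t, (m + 1) * (m + 1 - 1) = 2 * t := exists_tri (m + 1)
  have k5 : ((-y + 4 * x) % 8 = 1 ∨ (-y + 4 * x) % 8 = 7) ↔ (x + t) % 2 = 0 := by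
    have htt := tri ht
    have h4 : m % 4 = 0 ∨ m % 4 = 1 ∨ m % 4 = 2 ∨ m % 4 = 3 := by omega
    clear k1 k2 k3 k4 hnorm hxy ht
    rcases h4 with h4 | h4 | h4 | h4
    · have : t % 2 = 0 := htt.2 (by omega)
      clear htt
      omega
    · have : ¬ t % 2 = 0 := fun h => by have := htt.1 h; omega
      clear htt
      omega
    · have : ¬ t % 2 = 0 := fun h => by have := htt.1 h; omega
      clear htt
      omega
    · have : t % 2 = 0 := htt.2 (by omega)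
      clear htt
      omega
  rw [if_par k5] at k4
  have k6 : ((nrm (⟨-y, 4 * x⟩ : ZI) / 4 : ℕ) : ZMod 4) = 2 * (t : ZMod 4) := by
    have h1 := nrm_cast (⟨-y, 4 * x⟩ : ZI)
    rw [hnorm] at h1
    have h2 : ((nrm (⟨-y, 4 * x⟩ : ZI) : ℕ) : ℤ) = 4 * (2 * t + 4 * x ^ 2) + 1 := by
      rw [h1, hm]
      linear_combination 4 * ht
    have h3 : ((nrm (⟨-y, 4 * x⟩ : ZI) / 4 : ℕ) : ℤ) = 2 * t + 4 * x ^ 2 := by omega
    have h4 := congrArg (Int.cast : ℤ → ZMod 4) h3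
    rw [Int.cast_natCast] at h4
    rw [h4]
    push_cast
    linear_combination ((x : ZMod 4) ^ 2) * four_zero
  rw [k6]
  push_cast at k4 ⊢
  linear_combination k3 + k4 + (t : ZMod 4) * four_zero

lemma ls_of_unit {e : ℤ} (he : e = 1 ∨ e = -1) : lg (e : ZI) = ls e := lg_int_sign he

/-- the sign -/
theorem tw_eps {p : ℕ} [hp : Fact p.Prime] (h24 : p % 24 = 19) {x y : ℤ}
    (hxy : (4 * x) ^ 2 + 3 * y ^ 2 = p) {ε : ℤ} (hε : ε = 1 ∨ ε = -1) {ζ : ℂ}
    (hζ : ζ = Complex.exp (2 * Real.pi * Complex.I / 12))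
    (h : 2 * S p ζ = ε * ((1 + ζ ^ 3) * (1 + 2 * ζ - ζ ^ 3))) :
    ls ε = 2 * (x : ZMod 4) + 2 * ((p / 24 : ℕ) : ZMod 4) := by
  have hpp := hp.out
  have hop := inert_op hpp (show p % 4 = 3 by omega)
  obtain ⟨F, i1, i2, ρ, hR⟩ := hop.res
  have hchar : ringChar F = p := hR.char_eq hpp dvd_rfl
  have hCP : CharP F p := by rw [← hchar]; exact ringChar.charP F
  have cast0 : ∀ m : ℤ, (m : F) = 0 ↔ (p : ℤ) ∣ m := fun m => CharP.intCast_eq_zero_iff F p m
  have h20 : (2 : F) ≠ 0 := by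
    intro h0
    have h1 : ((2 : ℤ) : F) = 0 := by exact_mod_cast h0
    rw [cast0] at h1
    have := Int.le_of_dvd (by norm_num) h1
    omega
  have h30 : (3 : F) ≠ 0 := by
    intro h0
    have h1 : ((3 : ℤ) : F) = 0 := by exact_mod_cast h0
    rw [cast0] at h1
    have := Int.le_of_dvd (by norm_num) h1
    omega
  obtain ⟨i, hi⟩ : ∃ i, i = ρ im1 := ⟨_, rfl⟩
  have hi2 : i ^ 2 = -1 := by rw [hi, ← map_pow, im1_sq, map_neg, map_one]
  have hyi : (y : F) ≠ 0 := by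
    intro h0
    rw [cast0] at h0
    have h5 := cop_py hpp (D := 3) (x := 4 * x) (y := y) (by rw [← hxy]) (by norm_num)
    exact ((Nat.prime_iff_prime_int.1 hpp).coprime_iff_not_dvd.1 h5) h0
  have hxyF : (4 * (x : F)) ^ 2 + 3 * (y : F) ^ 2 = 0 := by
    have := congrArg (Int.cast : ℤ → F) hxy
    push_cast at this
    rw [this]
    exact CharP.cast_eq_zero F p
  obtain ⟨r, hr⟩ : ∃ r : F, r = 4 * x * i / y := ⟨_, rfl⟩
  have hry : r * y = 4 * x * i := by rw [hr]; field_simp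
  have hr2 : r ^ 2 = 3 := by
    have e1 : r ^ 2 * (y : F) ^ 2 = 3 * (y : F) ^ 2 := by
      have : r ^ 2 * (y : F) ^ 2 = (r * y) ^ 2 := by ring
      rw [this, hry]
      linear_combination (16 * (x : F) ^ 2) * hi2 - hxyF
    exact mul_right_cancel₀ (pow_ne_zero 2 hyi) e1
  obtain ⟨g, hg⟩ : ∃ g : F, g = (r + i) / 2 := ⟨_, rfl⟩
  have hg1 : 2 * g = r + i := by rw [hg]; field_simp
  have hg2 : 2 * g ^ 2 = 1 + i * r := by
    apply mul_left_cancel₀ h20
    have : 2 * (2 * g ^ 2) = (2 * g) ^ 2 := by ring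
    rw [this, hg1]
    linear_combination hr2 + hi2
  have hg3 : g ^ 3 = i := by
    apply mul_left_cancel₀ (mul_ne_zero h20 h20)
    have : 2 * 2 * g ^ 3 = (2 * g) * (2 * g ^ 2) := by ring
    rw [this, hg1, hg2]
    linear_combination i * hr2 + r * hi2
  have hg6 : g ^ 6 = -1 := by
    have : g ^ 6 = (g ^ 3) ^ 2 := by ring
    rw [this, hg3, hi2]
  have hprim : IsPrimitiveRoot g 12 := by
    rw [IsPrimitiveRoot.iff_orderOf]
    apply orderOf_eq_of_pow_and_pow_div_prime (by norm_num)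
    · have : g ^ 12 = (g ^ 6) ^ 2 := by ring
      rw [this, hg6]; ring
    · intro q hq hd
      have h1 : q ∣ 2 ^ 2 * 3 := hd
      rcases (Nat.Prime.dvd_mul hq).1 h1 with h' | h'
      · have : q = 2 := (Nat.prime_dvd_prime_iff_eq hq Nat.prime_two).1 (hq.dvd_of_dvd_pow h')
        subst this
        have e : 12 / 2 = 6 := by norm_num
        rw [e, hg6]
        intro h0
        apply h20
        linear_combination -h0
      · have : q = 3 := (Nat.prime_dvd_prime_iff_eq hq Nat.prime_three).1 h'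
        subst this
        have e : 12 / 3 = 4 := by norm_num
        rw [e]
        intro h0
        have e1 : g ^ 4 = g * i := by rw [← hg3]; ring
        rw [e1] at h0
        have e2 : (r + i) * i = 2 := by rw [← hg1]; linear_combination 2 * h0
        have e3 : r * i = 3 := by linear_combination e2 - hi2
        have e4 : (r * i) ^ 2 = 9 := by rw [e3]; norm_num
        have e5 : (2 : F) * 2 * 3 = 0 := by
          have : (r * i) ^ 2 = -3 := by
            have : (r * i) ^ 2 = r ^ 2 * i ^ 2 := by ring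
            rw [this, hr2, hi2]; ring
          rw [this] at e4
          linear_combination -e4
        exact (mul_ne_zero (mul_ne_zero h20 h20) h30) e5
  have rel := rel_char h24 hζ h hprim
  obtain ⟨k, hk⟩ : ∃ k, p = 24 * k + 19 := ⟨p / 24, by omega⟩
  have hn : (p - 1) / 2 = 12 * k + 9 := by omega
  obtain ⟨n, hne⟩ : ∃ n, n = 12 * k + 9 := ⟨_, rfl⟩
  rw [hn, ← hne, hg3] at rel
  have hr' : 1 + 2 * g - i = 1 + r := by rw [hg1]; ring
  rw [hr'] at rel
  have g5 : (1 + i) * (g - 1) = (r - 1) * g ^ 5 := by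
    apply mul_left_cancel₀ h20
    have : g ^ 5 = g ^ 2 * i := by rw [← hg3]; ring
    rw [this]
    have e1 : 2 * ((r - 1) * (g ^ 2 * i)) = (r - 1) * (2 * g ^ 2) * i := by ring
    have e2 : 2 * ((1 + i) * (g - 1)) = (1 + i) * (2 * g - 2) := by ring
    rw [e1, e2, hg1, hg2]
    linear_combination (1 - (r ^ 2 - r)) * hi2 + hr2
  have g9 : g ^ (5 * n) = -i := by
    have e1 : 5 * n = 6 * (10 * k + 7) + 3 := by rw [hne]; ring
    rw [e1, pow_add, pow_mul, hg6, hg3]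
    have : (-1 : F) ^ (10 * k + 7) = -1 := by
      apply Odd.neg_one_pow
      exact ⟨5 * k + 3, by ring⟩
    rw [this]; ring
  have m1 : (r - 1) ^ (n + 1) * (-i) = (ε : F) * (1 + i) ^ (n + 1) := by
    apply mul_left_cancel₀ h20
    have e1 : ((1 + i) * (g - 1)) ^ n = (r - 1) ^ n * (-i) := by
      rw [g5, mul_pow, ← pow_mul, g9]
    rw [mul_pow] at e1
    calc 2 * ((r - 1) ^ (n + 1) * (-i)) = 2 * (r - 1) * ((r - 1) ^ n * (-i)) := by ring
      _ = 2 * (r - 1) * ((1 + i) ^ n * (g - 1) ^ n) := by rw [e1]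
      _ = (r - 1) * (1 + i) ^ n * (2 * (g - 1) ^ n) := by ring
      _ = (r - 1) * (1 + i) ^ n * ((ε : F) * ((1 + i) * (1 + r))) := by rw [rel]
      _ = (ε : F) * (1 + i) ^ (n + 1) * (r ^ 2 - 1) := by ring
      _ = _ := by rw [hr2]; ring
  have m2 : (r - 1) ^ ((n + 1) * n) * (-i) ^ n = (ε : F) ^ n * (1 + i) ^ ((n + 1) * n) := by
    rw [pow_mul, pow_mul, ← mul_pow, m1, mul_pow]
  have hnrm : nrm (p : ZI) / 4 = (n + 1) * n := by
    rw [nrm_natCast]
    have : p * p = 4 * ((n + 1) * n) + 1 := by rw [hk, hne]; ring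
    omega
  -- values
  have hεF : (ε : F) ^ n = (ε : F) := by
    rcases hε with rfl | rfl
    · simp
    · push_cast
      rw [Odd.neg_one_pow ⟨6 * k + 4, by rw [hne]; ring⟩]
  have v1 := hR.rho_q4 (y : ZI)
  have v2 := hR.rho_q4 (⟨-y, 4 * x⟩ : ZI)
  have v3 := hR.rho_q4 oi
  rw [hnrm] at v1 v2 v3
  have hpy : IsCoprime (p : ℤ) y := cop_py hpp (D := 3) (x := 4 * x) (y := y) (by rw [← hxy]) (by norm_num)
  have q1 : q4 (p : ZI) (y : ZI) = 1 := by
    rw [← Q_prime hop.pr]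
    have := Q_rat (n := (p : ℤ)) (m := y) (by omega) hpy
    rwa [Int.cast_natCast] at this
  rw [q1, map_one, map_intCast] at v1
  have eκ : ρ (⟨-y, 4 * x⟩ : ZI) = (y : F) * (r - 1) := by
    have e : (⟨-y, 4 * x⟩ : ZI) = ((-y : ℤ) : ZI) + ((4 * x : ℤ) : ZI) * im1 := eq_re_im _
    rw [e, map_add, map_mul, map_intCast, map_intCast, ← hi]
    push_cast
    linear_combination -hry
  rw [eκ, mul_pow, ← v1, one_mul] at v2
  have eoi : ρ oi = 1 + i := by
    have e : oi = 1 + im1 := by decide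
    rw [e, map_add, map_one, ← hi]
  rw [eoi] at v3
  rw [← v2, ← v3, hεF] at m2
  have m3 : ρ (q4 (p : ZI) (⟨-y, 4 * x⟩ : ZI) * (-im1) ^ n) = ρ ((ε : ZI) * q4 (p : ZI) oi) := by
    rw [map_mul, map_mul, map_pow, map_neg, ← hi, map_intCast]
    exact m2
  have hεv : (ε : ZI).norm = 1 := by rcases hε with rfl | rfl <;> simp [Zsqrtd.norm_def]
  have nκ : ¬ (p : ZI) ∣ (⟨-y, 4 * x⟩ : ZI) := by
    rw [← hR.ker, eκ]
    apply mul_ne_zero hyi
    intro h0
    have : r = 1 := by linear_combination h0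
    rw [this] at hr2
    apply h20
    linear_combination -hr2
  have noi : ¬ (p : ZI) ∣ oi := by
    intro hd
    have := cop_oi hop.odd
    exact hop.pr.not_isUnit (this.isUnit_of_dvd' dvd_rfl hd)
  have u1 := q4_norm hop nκ
  have u2 := q4_norm hop noi
  have u3 : ((-im1) ^ n).norm = 1 := by
    rw [← isUnit_iff_norm]
    exact (isUnit_iff_norm.2 (by decide)).pow n
  have m4 : q4 (p : ZI) (⟨-y, 4 * x⟩ : ZI) * (-im1) ^ n = (ε : ZI) * q4 (p : ZI) oi := by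
    apply hop.eq_val
    · right; rw [Zsqrtd.norm_mul, u1, u3]; rfl
    · right; rw [Zsqrtd.norm_mul, hεv, u2]; rfl
    · rw [← hR.ker, map_sub, m3, sub_self]
  have m5 := congrArg lg m4
  rw [lg_mul u1 u3, lg_mul hεv u2, lg_pow (by decide), ls_of_unit hε] at m5
  have m6 := L_kappa hpp h24 hxy
  have m7 := L_int_oi (n := (p : ℤ)) (by omega)
  unfold L at m6 m7
  rw [Q_prime hop.pr] at m6
  rw [Int.cast_natCast, Q_prime hop.pr] at m7
  have e4 : s4 (p : ℤ) * p = 4 * (-(6 * (k : ℤ) + 5)) + 1 := by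
    unfold s4
    rw [if_neg (by omega), hk]
    push_cast
    ring
  rw [so_eq e4] at m7
  rw [m6, m7, hne] at m5
  have e5 : lg (-im1) = 3 := by decide
  rw [e5] at m5
  have e6 : p / 24 = k := by omega
  rw [e6]
  push_cast at m5 ⊢
  linear_combination -m5 + (10 * (k : ZMod 4) + 8) * four_zero

end Pool.Agent.R441.Tw
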